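import Pool.Agent.V5helper3.EC.Good
import Pool.Agent.Q299.CY.BR

set_option autoImplicit false
set_option linter.unusedSectionVars false

/-! # Counting walks -/

namespace Pool.Agent.V5helper3.EC

open Finset Pool.Agent.Q299.CY

variable {V : Type} [Fintype V]

open Classical in
/-- the adjacency matrix -/
noncomputable def ad (G : SimpleGraph V) (u v : V) : ℝ := if G.Adj u v then 1 else 0

variable {G : SimpleGraph V} {x : V} {k : ℕ}

theorem ad_nonneg (u v : V) : 0 ≤ ad G u v := by
  unfold ad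
  split_ifs <;> norm_num

theorem ad_symm (u v : V) : ad G u v = ad G v u := by
  unfold ad
  by_cases h : G.Adj v u
  · rw [if_pos h, if_pos h.symm]
  · rw [if_neg h, if_neg (fun h' => h h'.symm)]

open Classical in
/-- all degrees are at most `D` -/
def MaxDeg (G : SimpleGraph V) (D : ℝ) : Prop :=
  ∀ v, (#(univ.filter (G.Adj v)) : ℝ) ≤ D

theorem sum_ad (v : V) : (open Classical in ∑ u, ad G v u = (#(univ.filter (G.Adj v)) : ℝ)) := by
  classical
  unfold ad
  rw [sum_boole]

open Classical in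
theorem uw_le {D : ℝ} (hD0 : 0 ≤ D) (hD : MaxDeg G D) (m : ℕ) (v : V) :
    uw (ad G) m v ≤ D ^ m := by
  induction m generalizing v with
  | zero => simp [uw]
  | succ m ih =>
    rw [uw]
    calc ∑ y, ad G v y * uw (ad G) m y ≤ ∑ y, ad G v y * D ^ m :=
          sum_le_sum fun y _ => mul_le_mul_of_nonneg_left (ih y) (ad_nonneg v y)
      _ = (∑ y, ad G v y) * D ^ m := by rw [sum_mul]
      _ ≤ D * D ^ m := by
          refine mul_le_mul_of_nonneg_right ?_ (by positivity)
          rw [sum_ad]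
          exact hD v
      _ = _ := by ring

open Classical in
/-- the levels -/
noncomputable def lv (F : Lev G x k) (j : ℕ) : Finset V := univ.filter fun v => F.L v = j

theorem mem_lv (F : Lev G x k) (j : ℕ) (v : V) : v ∈ lv F j ↔ F.L v = j := by
  unfold lv
  simp

theorem card_lv (F : Lev G x k) {D : ℝ} (hD0 : 0 ≤ D) (hD : MaxDeg G D) (j : ℕ) (hj : j ≤ k) :
    (#(lv F j) : ℝ) ≤ D ^ j := by
  classical
  induction j with
  | zero =>
    have h1 : lv F 0 = {x} := by
      ext v
      rw [mem_lv, mem_singleton]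
      exact F.root v
    rw [h1]
    simp
  | succ j ih =>
    have h1 : lv F (j + 1) ⊆ (lv F j).biUnion fun v => univ.filter (G.Adj v) := by
      intro v hv
      rw [mem_lv] at hv
      have h2 := F.parent v (by omega) (by omega)
      rw [mem_biUnion]
      refine ⟨F.par v, (mem_lv _ _ _).2 (by omega), mem_filter.2 ⟨mem_univ _, h2.1.symm⟩⟩
    have h2 : (#(lv F (j + 1)) : ℝ) ≤ ∑ v ∈ lv F j, (#(univ.filter (G.Adj v)) : ℝ) := by
      exact_mod_cast (card_le_card h1).trans card_biUnion_le
    calc (#(lv F (j + 1)) : ℝ) ≤ ∑ v ∈ lv F j, (#(univ.filter (G.Adj v)) : ℝ) := h2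
      _ ≤ ∑ _v ∈ lv F j, D := sum_le_sum fun v _ => by
          have := hD v
          convert this
      _ = #(lv F j) * D := by rw [sum_const, nsmul_eq_mul]
      _ ≤ D ^ j * D := mul_le_mul_of_nonneg_right (ih (by omega)) hD0
      _ = _ := by ring

/-- the next vertex of a good path -/
def Gd (F : Lev G x k) (j : ℕ) (v : V) : Prop := F.L v = j + 1 ∧ bd F v ≤ k - 1

open Classical in
noncomputable def NG (F : Lev G x k) (j : ℕ) : Finset V := univ.filter fun v => ¬ Gd F j v

theorem gp_le' (F : Lev G x k) (hk : 2 ≤ k) (j : ℕ) (v : V) : gp F j v ≤ (k - 1) ^ j := by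
  cases j with
  | zero =>
    rw [gp, pow_zero]
    split_ifs <;> simp
  | succ j =>
    refine (gp_le F j v).trans (Nat.pow_le_pow_right (by omega) (by omega))

open Classical in
/-- weighted number of good paths of length `j` -/
noncomputable def T (F : Lev G x k) (j : ℕ) : ℝ :=
  ∑ v, (gp F j v : ℝ) * uw (ad G) (k - j) v

theorem T_step (F : Lev G x k) (hk : 2 ≤ k) {D : ℝ} (hD0 : 0 ≤ D) (hD : MaxDeg G D) (j : ℕ)
    (hj : j < k) :
    T F j ≤ T F (j + 1) + D ^ (k - (j + 1)) * ((k - 1 : ℕ) : ℝ) ^ j *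
      (en G.Adj (lv F j) (NG F j) : ℝ) := by
  classical
  set m := k - (j + 1) with hm
  have e1 : k - j = m + 1 := by omega
  set K : ℝ := ((k - 1 : ℕ) : ℝ) with hK
  have hK0 : 0 ≤ K := Nat.cast_nonneg _
  have hT : T F j = ∑ v, ∑ u, (gp F j v : ℝ) * ad G v u * uw (ad G) m u := by
    unfold T
    rw [e1]
    refine sum_congr rfl fun v _ => ?_
    rw [uw, mul_sum]
    exact sum_congr rfl fun u _ => by ring
  have hterm : ∀ v u, (gp F j v : ℝ) * ad G v u * uw (ad G) m u ≤
      (if Gd F j u then (gp F j v : ℝ) * ad G v u * uw (ad G) m u else 0) +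
      D ^ m * K ^ j * (if v ∈ lv F j ∧ u ∈ NG F j then ad G v u else 0) := by
    intro v u
    have hw0 : 0 ≤ uw (ad G) m u := uw_nonneg ad_nonneg m u
    by_cases h1 : Gd F j u
    · simp only [h1, if_true]
      have h2 : (0 : ℝ) ≤ D ^ m * K ^ j * (if v ∈ lv F j ∧ u ∈ NG F j then ad G v u else 0) := by
        have := ad_nonneg (G := G) v u
        split_ifs <;> positivity
      linarith
    · simp only [h1, if_false, zero_add]
      have hu : u ∈ NG F j := mem_filter.2 ⟨mem_univ _, h1⟩
      by_cases h2 : gp F j v = 0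
      · rw [h2]
        have := ad_nonneg (G := G) v u
        have h3 : (0 : ℝ) ≤ D ^ m * K ^ j * (if v ∈ lv F j ∧ u ∈ NG F j then ad G v u else 0) := by
          split_ifs <;> positivity
        simpa using h3
      · have hv : v ∈ lv F j := (mem_lv _ _ _).2 (gp_level F j v h2)
        simp only [hv, hu, and_self, if_true]
        have h3 : (gp F j v : ℝ) ≤ K ^ j := by
          rw [hK]
          exact_mod_cast gp_le' F hk j v
        have h4 := uw_le hD0 hD m u
        have h5 := ad_nonneg (G := G) v u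
        calc (gp F j v : ℝ) * ad G v u * uw (ad G) m u ≤ K ^ j * ad G v u * D ^ m := by
              gcongr
          _ = _ := by ring
  have hsum1 : ∑ v, ∑ u, (if Gd F j u then (gp F j v : ℝ) * ad G v u * uw (ad G) m u else 0) =
      T F (j + 1) := by
    rw [sum_comm]
    unfold T
    refine sum_congr rfl fun u _ => ?_
    by_cases h1 : Gd F j u
    · simp only [h1, if_true]
      rw [← sum_mul]
      congr 1
      rw [gp]
      have h2 : F.L u = j + 1 ∧ bd F u ≤ k - 1 := h1
      rw [if_pos h2, Nat.cast_sum, sum_filter]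
      refine sum_congr rfl fun v _ => ?_
      rw [ad_symm]
      unfold ad
      by_cases h3 : G.Adj u v <;> simp [h3]
    · simp only [h1, if_false, sum_const_zero]
      rw [gp]
      have h2 : ¬ (F.L u = j + 1 ∧ bd F u ≤ k - 1) := h1
      rw [if_neg h2]
      simp
  have hsum2 : ∑ v, ∑ u, D ^ m * K ^ j * (if v ∈ lv F j ∧ u ∈ NG F j then ad G v u else 0) =
      D ^ m * K ^ j * (en G.Adj (lv F j) (NG F j) : ℝ) := by
    simp only [← mul_sum]
    congr 1
    unfold en
    push_cast
    have e : ∀ v, (∑ u, (if v ∈ lv F j ∧ u ∈ NG F j then ad G v u else 0)) =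
        if v ∈ lv F j then ∑ u, (if u ∈ NG F j then ad G v u else 0) else 0 := by
      intro v
      by_cases h1 : v ∈ lv F j
      · simp [h1]
      · simp [h1]
    simp only [e]
    rw [← sum_filter, filter_univ_mem]
    refine sum_congr rfl fun v _ => ?_
    rw [← sum_filter, filter_univ_mem]
    exact sum_congr rfl fun u _ => by unfold ad; split_ifs <;> rfl
  rw [hT]
  calc _ ≤ ∑ v, ∑ u, ((if Gd F j u then (gp F j v : ℝ) * ad G v u * uw (ad G) m u else 0) +
      D ^ m * K ^ j * (if v ∈ lv F j ∧ u ∈ NG F j then ad G v u else 0)) :=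
        sum_le_sum fun v _ => sum_le_sum fun u _ => hterm v u
    _ = _ := by
      simp only [sum_add_distrib]
      rw [hsum1, hsum2]

theorem en_union_right (r : V → V → Prop) [DecidableEq V] (A B C : Finset V) :
    en r A (B ∪ C) ≤ en r A B + en r A C := by
  classical
  unfold en
  rw [← sum_add_distrib]
  refine sum_le_sum fun v _ => ?_
  have h := sum_union_inter (s₁ := B) (s₂ := C) (f := fun w => if r v w then 1 else 0)
  omega

theorem en_le_of (r : V → V → Prop) (A B C : Finset V)
    (h : ∀ v ∈ A, ∀ u ∈ B, r v u → u ∈ C) : en r A B ≤ en r A C := by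
  classical
  rw [en_eq, en_eq]
  refine sum_le_sum fun v hv => card_le_card fun u hu => ?_
  rw [mem_filter] at hu ⊢
  exact ⟨h v hv u hu.1 hu.2, hu.2⟩

theorem bad_zero (F : Lev G x k) (hk : 2 ≤ k) : en G.Adj (lv F 0) (NG F 0) = 0 := by
  classical
  rw [en_eq]
  refine sum_eq_zero fun v hv => ?_
  rw [card_eq_zero, filter_eq_empty_iff]
  intro u hu hvu
  rw [mem_lv] at hv
  have hvx := (F.root v).1 hv
  have h1 := F.step v u hvu
  have h2 : F.L u ≠ 0 := fun h => by
    have := (F.root u).1 h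
    rw [hvx, this] at hvu
    exact hvu.ne rfl
  have h3 : F.L u = 1 := by omega
  refine (mem_filter.1 hu).2 ⟨by omega, ?_⟩
  have h4 : bd F u ≤ 1 := by
    unfold bd
    refine (card_le_card (t := {x}) fun w hw => ?_).trans (card_singleton x).le
    rw [mem_filter] at hw
    rw [mem_singleton]
    exact (F.root w).1 (by omega)
  omega

theorem bad_le (hk : 3 ≤ k) (hG : NoC G k) (F : Lev G x k) {D : ℝ} (hD1 : 1 ≤ D)
    (hD : MaxDeg G D) (j : ℕ) (hj : j < k) :
    (en G.Adj (lv F j) (NG F j) : ℝ) ≤ ((k - 1 : ℕ) : ℝ) * (10 + k) * D ^ j := by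
  classical
  have hD0 : 0 ≤ D := by linarith
  rcases Nat.eq_zero_or_pos j with h0 | h0
  · subst h0
    rw [bad_zero F (by omega)]
    simp only [Nat.cast_zero]
    positivity
  obtain ⟨i, rfl⟩ : ∃ i, j = i + 1 := ⟨j - 1, by omega⟩
  set Z := (lv F (i + 1 + 1)).filter fun u => k ≤ bd F u with hZ
  have h1 : en G.Adj (lv F (i + 1)) (NG F (i + 1)) ≤
      en G.Adj (lv F (i + 1)) (lv F i) + en G.Adj (lv F (i + 1)) (lv F (i + 1)) +
      en G.Adj (lv F (i + 1)) Z := by
    refine (en_le_of _ _ _ ((lv F i ∪ lv F (i + 1)) ∪ Z) ?_).trans ?_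
    · intro v hv u hu hvu
      rw [mem_lv] at hv
      have h2 := F.step v u hvu
      have h3 := F.step u v hvu.symm
      have h4 : F.L u = i ∨ F.L u = i + 1 ∨ F.L u = i + 2 := by omega
      rw [mem_union, mem_union, mem_lv, mem_lv]
      rcases h4 with h4 | h4 | h4
      · exact Or.inl (Or.inl h4)
      · exact Or.inl (Or.inr h4)
      · right
        rw [hZ, mem_filter, mem_lv]
        refine ⟨h4, ?_⟩
        by_contra h5
        exact (mem_filter.1 hu).2 ⟨h4, by omega⟩
    · exact (en_union_right _ _ _ _).trans (Nat.add_le_add_right (en_union_right _ _ _ _) _)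
  have h2 : en G.Adj (lv F (i + 1)) (lv F i) ≤ (k - 1) * (#(lv F i) + #(lv F (i + 1))) := by
    rw [en_comm G.Adj (fun v w h => h.symm)]
    rcases Nat.eq_zero_or_pos i with hi | hi
    · subst hi
      have e : lv F 0 = {x} := by
        ext v
        rw [mem_lv, mem_singleton]
        exact F.root v
      rw [e, en_eq, sum_singleton]
      have h3 : #((lv F (0 + 1)).filter (G.Adj x)) ≤ #(lv F (0 + 1)) := card_filter_le _ _
      calc _ ≤ #(lv F (0 + 1)) := h3
        _ ≤ 1 * (#({x} : Finset V) + #(lv F (0 + 1))) := by rw [card_singleton]; omega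
        _ ≤ _ := Nat.mul_le_mul_right _ (by omega)
    · exact edges_YZ hk hG F i hi (by omega) _ _ (fun v hv => (mem_lv _ _ _).1 hv)
        (fun v hv => by rw [(mem_lv _ _ _).1 hv]; omega) (by
          rw [disjoint_left]
          intro v hv hv'
          rw [mem_lv] at hv hv'
          omega)
  have h3 : en G.Adj (lv F (i + 1)) (lv F (i + 1)) ≤ 8 * (k - 1) * #(lv F (i + 1)) :=
    edges_level hk hG F (i + 1) (by omega) hj _ (fun v hv => (mem_lv _ _ _).1 hv)
  have h4 : en G.Adj (lv F (i + 1)) Z ≤ k * (k - 1) * #(lv F (i + 1)) := by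
    refine edges_high hk hG F (i + 1) (by omega) hj _ _ (fun v hv => (mem_lv _ _ _).1 hv)
      (fun v hv => (mem_lv _ _ _).1 (mem_filter.1 hv).1) (fun v hv => ?_)
    have hv1 := (mem_lv _ _ _).1 (mem_filter.1 hv).1
    refine (mem_filter.1 hv).2.trans (card_le_card fun u hu => ?_)
    rw [mem_filter] at hu ⊢
    refine ⟨(mem_lv _ _ _).2 (by omega), hu.2.1⟩
  have h5 : en G.Adj (lv F (i + 1)) (NG F (i + 1)) ≤
      (k - 1) * #(lv F i) + (k - 1) * (9 + k) * #(lv F (i + 1)) := by
    calc _ ≤ (k - 1) * (#(lv F i) + #(lv F (i + 1))) + 8 * (k - 1) * #(lv F (i + 1)) +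
          k * (k - 1) * #(lv F (i + 1)) := by omega
      _ = _ := by ring
  have c1 := card_lv F hD0 hD i (by omega)
  have c2 := card_lv F hD0 hD (i + 1) (by omega)
  have c3 : D ^ i ≤ D ^ (i + 1) := pow_le_pow_right₀ hD1 (by omega)
  calc (en G.Adj (lv F (i + 1)) (NG F (i + 1)) : ℝ) ≤
      ((k - 1 : ℕ) : ℝ) * #(lv F i) + ((k - 1 : ℕ) : ℝ) * (9 + k) * #(lv F (i + 1)) := by
        exact_mod_cast h5
    _ ≤ ((k - 1 : ℕ) : ℝ) * D ^ (i + 1) + ((k - 1 : ℕ) : ℝ) * (9 + k) * D ^ (i + 1) := by
        refine add_le_add (mul_le_mul_of_nonneg_left (c1.trans c3) (Nat.cast_nonneg _))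
          (mul_le_mul_of_nonneg_left c2 (by positivity))
    _ = _ := by ring

/-- **walks from one vertex** -/
theorem walks_le (hk : 3 ≤ k) (hG : NoC G k) (F : Lev G x k) {D : ℝ} (hD1 : 1 ≤ D)
    (hD : MaxDeg G D) :
    uw (ad G) k x ≤ (Fintype.card V : ℝ) * ((k - 1 : ℕ) : ℝ) ^ (k - 2) +
      k * (((k - 1 : ℕ) : ℝ) ^ (k + 1) * (10 + k)) * D ^ (k - 1) := by
  classical
  have hD0 : 0 ≤ D := by linarith
  set K : ℝ := ((k - 1 : ℕ) : ℝ) with hK
  have hK1 : 1 ≤ K := by
    rw [hK]
    have : 1 ≤ k - 1 := by omega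
    exact_mod_cast this
  have hK0 : 0 ≤ K := by linarith
  set W : ℝ := K ^ (k + 1) * (10 + k) * D ^ (k - 1) with hW
  have hstep : ∀ j, j < k → T F j ≤ T F (j + 1) + W := by
    intro j hj
    refine (T_step F (by omega) hD0 hD j hj).trans (add_le_add_right ?_ _)
    have h1 := bad_le hk hG F hD1 hD j hj
    calc D ^ (k - (j + 1)) * K ^ j * (en G.Adj (lv F j) (NG F j) : ℝ) ≤
        D ^ (k - (j + 1)) * K ^ j * (K * (10 + k) * D ^ j) := by gcongr
      _ = (K ^ j * K) * (10 + k) * (D ^ (k - (j + 1)) * D ^ j) := by ring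
      _ = K ^ (j + 1) * (10 + k) * D ^ (k - 1) := by
          rw [← pow_succ, ← pow_add]
          congr 2
          omega
      _ ≤ W := by
          rw [hW]
          have : K ^ (j + 1) ≤ K ^ (k + 1) := pow_le_pow_right₀ hK1 (by omega)
          gcongr
  have hall : ∀ j, j ≤ k → T F 0 ≤ T F j + j * W := by
    intro j
    induction j with
    | zero => intro _; simp
    | succ j ih =>
      intro hj
      have h1 := ih (by omega)
      have h2 := hstep j (by omega)
      push_cast
      linarith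
  have h0 : T F 0 = uw (ad G) k x := by
    unfold T
    rw [Nat.sub_zero, sum_eq_single x]
    · simp [gp]
    · intro v _ hv
      simp [gp, hv]
    · intro h
      exact absurd (mem_univ x) h
  have hk' : T F k ≤ (Fintype.card V : ℝ) * K ^ (k - 2) := by
    unfold T
    calc ∑ v, (gp F k v : ℝ) * uw (ad G) (k - k) v ≤ ∑ _v : V, K ^ (k - 2) := by
          refine sum_le_sum fun v _ => ?_
          rw [Nat.sub_self, uw, mul_one, hK]
          exact_mod_cast gp_k_le hG (by omega) F v
      _ = _ := by rw [sum_const, card_univ, nsmul_eq_mul]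
  have h1 := hall k le_rfl
  rw [h0] at h1
  calc uw (ad G) k x ≤ T F k + k * W := h1
    _ ≤ (Fintype.card V : ℝ) * K ^ (k - 2) + k * W := by linarith
    _ = _ := by rw [hW]; ring

end Pool.Agent.V5helper3.EC
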