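import Pool.Agent.V5helper3.EC.Sparse

set_option autoImplicit false

/-! # Good paths: two disjoint ones or a cut vertex -/

namespace Pool.Agent.V5helper3.EC

open Finset

variable {V : Type} [Fintype V]

open Classical in
/-- the number of neighbours in the preceding level -/
noncomputable def bd {G : SimpleGraph V} {x : V} {k : ℕ} (F : Lev G x k) (v : V) : ℕ :=
  #(univ.filter fun u => G.Adj v u ∧ F.L u + 1 = F.L v)

open Classical in
/-- the number of good paths of length `j` from the root to `v` -/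
noncomputable def gp {G : SimpleGraph V} {x : V} {k : ℕ} (F : Lev G x k) : ℕ → V → ℕ
  | 0, v => if v = x then 1 else 0
  | j + 1, v => if F.L v = j + 1 ∧ bd F v ≤ k - 1 then
      ∑ u ∈ univ.filter (G.Adj v), gp F j u else 0

variable {G : SimpleGraph V} {x : V} {k : ℕ}

theorem gp_level (F : Lev G x k) (j : ℕ) (v : V) (h : gp F j v ≠ 0) : F.L v = j := by
  classical
  cases j with
  | zero =>
    rw [gp] at h
    split_ifs at h with h1
    · exact (F.root v).2 h1
    · exact absurd rfl h
  | succ j =>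
    rw [gp] at h
    split_ifs at h with h1
    · exact h1.1
    · exact absurd rfl h

/-- a sum over the neighbours of `v` of a function which lives on the preceding level -/
theorem sum_nb (F : Lev G x k) (v : V) (f : V → ℕ) (B : ℕ)
    (h1 : ∀ u, f u ≠ 0 → F.L u + 1 = F.L v) (h2 : ∀ u, G.Adj v u → f u ≤ B) :
    (open Classical in ∑ u ∈ univ.filter (G.Adj v), f u) ≤ bd F v * B := by
  classical
  have e : ∑ u ∈ univ.filter (G.Adj v), f u =
      ∑ u ∈ univ.filter (fun u => G.Adj v u ∧ F.L u + 1 = F.L v), f u := by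
    symm
    refine sum_subset (fun u hu => ?_) (fun u hu hu' => ?_)
    · rw [mem_filter] at hu ⊢
      exact ⟨hu.1, hu.2.1⟩
    · by_contra h3
      exact hu' (mem_filter.2 ⟨mem_univ _, (mem_filter.1 hu).2, h1 u h3⟩)
  have e2 : (open Classical in ∑ u ∈ univ.filter (G.Adj v), f u) =
      ∑ u ∈ univ.filter (G.Adj v), f u := by
    congr
  rw [e]
  refine (sum_le_card_nsmul _ _ B fun u hu => h2 u (mem_filter.1 hu).2.1).trans (le_of_eq ?_)
  rw [smul_eq_mul]
  rfl

theorem gp_le (F : Lev G x k) (j : ℕ) (v : V) : gp F (j + 1) v ≤ (k - 1) ^ j := by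
  classical
  induction j generalizing v with
  | zero =>
    rw [gp]
    split_ifs with h1
    · rw [pow_zero]
      calc ∑ u ∈ univ.filter (G.Adj v), gp F 0 u ≤ ∑ u, gp F 0 u :=
            sum_le_sum_of_subset (filter_subset _ _)
        _ = 1 := by
          simp only [gp]
          rw [sum_ite_eq' univ x]
          simp
    · exact Nat.zero_le _
  | succ j ih =>
    rw [gp]
    split_ifs with h1
    · refine (sum_nb F v (gp F (j + 1)) ((k - 1) ^ j) ?_ (fun u _ => ih u)).trans ?_
      · intro u hu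
        rw [gp_level F _ u hu, h1.1]
      · rw [pow_succ, mul_comm]
        exact Nat.mul_le_mul_left _ h1.2
    · exact Nat.zero_le _

/-- a good path of length `m` -/
def GoodPath (F : Lev G x k) (m : ℕ) (P : ℕ → V) : Prop :=
  P 0 = x ∧ ∀ t < m, G.Adj (P t) (P (t + 1)) ∧ F.L (P (t + 1)) = t + 1 ∧ bd F (P (t + 1)) ≤ k - 1

theorem GoodPath.level {F : Lev G x k} {m : ℕ} {P : ℕ → V} (h : GoodPath F m P) (t : ℕ)
    (ht : t ≤ m) : F.L (P t) = t := by
  cases t with
  | zero => exact (F.root _).2 h.1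
  | succ t => exact (h.2 t ht).2.1

theorem GoodPath.mono {F : Lev G x k} {m m' : ℕ} {P : ℕ → V} (h : GoodPath F m P) (hm : m' ≤ m) :
    GoodPath F m' P := ⟨h.1, fun t ht => h.2 t (ht.trans_le hm)⟩

/-- follow `P` up to the place `i`, then `Q` -/
theorem GoodPath.join {F : Lev G x k} {m i : ℕ} {P Q : ℕ → V} (h : GoodPath F i P)
    (h' : GoodPath F m Q) (h1 : P i = Q i) :
    GoodPath F m (fun t => if t ≤ i then P t else Q t) := by
  refine ⟨?_, fun t ht => ?_⟩
  · simp only [Nat.zero_le, if_true]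
    exact h.1
  · rcases lt_trichotomy t i with h2 | h2 | h2
    · have h3 : t ≤ i := h2.le
      have h4 : t + 1 ≤ i := h2
      simp only [h3, h4, if_true]
      exact h.2 t h2
    · subst h2
      have h4 : ¬ t + 1 ≤ t := by omega
      simp only [le_refl, if_true, h4, if_false]
      rw [h1]
      exact h'.2 t ht
    · have h3 : ¬ t ≤ i := by omega
      have h4 : ¬ t + 1 ≤ i := by omega
      simp only [h3, h4, if_false]
      exact h'.2 t ht

theorem gp_path (F : Lev G x k) (j : ℕ) (v : V) (h : gp F j v ≠ 0) :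
    ∃ P, GoodPath F j P ∧ P j = v := by
  classical
  induction j generalizing v with
  | zero =>
    rw [gp] at h
    split_ifs at h with h1
    · exact ⟨fun _ => x, ⟨rfl, fun t ht => absurd ht (by omega)⟩, h1.symm⟩
    · exact absurd rfl h
  | succ j ih =>
    rw [gp] at h
    split_ifs at h with h1
    · obtain ⟨u, hu, hu0⟩ := exists_ne_zero_of_sum_ne_zero h
      obtain ⟨P, hP, hPu⟩ := ih u hu0
      refine ⟨fun t => if t ≤ j then P t else v, ⟨?_, fun t ht => ?_⟩, ?_⟩
      · simp only [Nat.zero_le, if_true]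
        exact hP.1
      · rcases Nat.lt_or_ge t j with h2 | h2
        · have h3 : t ≤ j := h2.le
          have h4 : t + 1 ≤ j := h2
          simp only [h3, h4, if_true]
          exact hP.2 t h2
        · have h3 : t = j := by omega
          subst h3
          have h4 : ¬ t + 1 ≤ t := by omega
          simp only [le_refl, if_true, h4, if_false]
          rw [hPu]
          exact ⟨(mem_filter.1 hu).2.symm, h1.1, h1.2⟩
      · have h4 : ¬ j + 1 ≤ j := by omega
        simp only [h4, if_false]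
    · exact absurd rfl h

/-- `v` is the place `j` of a good path to `y` -/
def Useful (F : Lev G x k) (y : V) (j : ℕ) (v : V) : Prop :=
  ∃ P, GoodPath F k P ∧ P k = y ∧ P j = v

theorem menger_step (F : Lev G x k) (y : V) (j i : ℕ) (hjk : j < k) (P Q R : ℕ → V)
    (u : V) (hP : GoodPath F j P) (hQ : GoodPath F j Q)
    (hPQ : ∀ t, 1 ≤ t → t ≤ j → P t ≠ Q t) (hQu : ∃ Q', GoodPath F k Q' ∧ Q' k = y ∧ Q' j = Q j ∧
      Q' (j + 1) = u) (hR : GoodPath F k R) (hRy : R k = y) (hRu : R (j + 1) ≠ u)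
    (hij : i ≤ j) (hi : R i = P i) (hmax : ∀ t, i < t → t ≤ j → R t ≠ Q t) :
    ∃ P Q : ℕ → V, GoodPath F (j + 1) P ∧ GoodPath F (j + 1) Q ∧ Useful F y (j + 1) (P (j + 1)) ∧
      Useful F y (j + 1) (Q (j + 1)) ∧ ∀ t, 1 ≤ t → t ≤ j + 1 → P t ≠ Q t := by
  obtain ⟨Q', hQ1, hQ2, hQ3, hQ4⟩ := hQu
  have hj1 : ¬ j + 1 ≤ i := by omega
  have hj2 : ¬ j + 1 ≤ j := by omega
  refine ⟨fun t => if t ≤ i then P t else R t, fun t => if t ≤ j then Q t else Q' t,
    (hP.mono hij).join (hR.mono hjk) hi.symm, hQ.join (hQ1.mono hjk) hQ3.symm, ?_, ?_, ?_⟩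
  · simp only [hj1, if_false]
    exact ⟨R, hR, hRy, rfl⟩
  · simp only [hj2, if_false]
    exact ⟨Q', hQ1, hQ2, rfl⟩
  · intro t ht1 ht2
    rcases Nat.lt_or_ge j t with h1 | h1
    · have h2 : t = j + 1 := by omega
      subst h2
      simp only [hj1, hj2, if_false]
      rw [hQ4]
      exact hRu
    · rcases Nat.lt_or_ge i t with h2 | h2
      · have h3 : ¬ t ≤ i := by omega
        simp only [h1, h3, if_true, if_false]
        exact hmax t h2 h1
      · simp only [h1, h2, if_true]
        exact hPQ t ht1 h1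

/-- two good paths with no common inner vertex -/
theorem menger (F : Lev G x k) (y : V)
    (h : ∀ j, 1 ≤ j → j < k → ∃ v w, Useful F y j v ∧ Useful F y j w ∧ v ≠ w) (j : ℕ)
    (hj : j + 1 < k) :
    ∃ P Q : ℕ → V, GoodPath F (j + 1) P ∧ GoodPath F (j + 1) Q ∧ Useful F y (j + 1) (P (j + 1)) ∧
      Useful F y (j + 1) (Q (j + 1)) ∧ ∀ t, 1 ≤ t → t ≤ j + 1 → P t ≠ Q t := by
  induction j with
  | zero =>
    obtain ⟨v, w, ⟨P, h1, h2, h3⟩, ⟨Q, h4, h5, h6⟩, hne⟩ := h 1 le_rfl hj
    refine ⟨P, Q, h1.mono (by omega), h4.mono (by omega), ⟨P, h1, h2, rfl⟩, ⟨Q, h4, h5, rfl⟩, ?_⟩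
    intro t ht1 ht2
    have e : t = 1 := by omega
    subst e
    rw [h3, h6]
    exact hne
  | succ j ih =>
    obtain ⟨P, Q, hP, hQ, ⟨P', p1, p2, p3⟩, ⟨Q', q1, q2, q3⟩, hPQ⟩ := ih (by omega)
    set J := j + 1 with hJ
    have hJk : J < k := by omega
    by_cases hne : P' (J + 1) = Q' (J + 1)
    · -- another useful vertex in the next level
      obtain ⟨R, hR, hRy, hRu⟩ : ∃ R, GoodPath F k R ∧ R k = y ∧ R (J + 1) ≠ P' (J + 1) := by
        obtain ⟨v, w, ⟨A, a1, a2, a3⟩, ⟨B, b1, b2, b3⟩, hvw⟩ := h (J + 1) (by omega) hj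
        by_cases hv : v = P' (J + 1)
        · refine ⟨B, b1, b2, ?_⟩
          rw [b3, ← hv]
          exact hvw.symm
        · refine ⟨A, a1, a2, ?_⟩
          rw [a3]
          exact hv
      obtain ⟨i, ⟨hi1, hi2⟩, himax⟩ := exists_maximal_nat
        (fun t => t ≤ J ∧ (R t = P t ∨ R t = Q t)) ⟨Nat.zero_le _, Or.inl (by rw [hR.1, hP.1])⟩ J
        (fun t ht => ht.1)
      have hmaxP : ∀ t, i < t → t ≤ J → R t ≠ P t := fun t h1 h2 h3 => by
        have := himax t ⟨h2, Or.inl h3⟩
        omega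
      have hmaxQ : ∀ t, i < t → t ≤ J → R t ≠ Q t := fun t h1 h2 h3 => by
        have := himax t ⟨h2, Or.inr h3⟩
        omega
      rcases hi2 with hi2 | hi2
      · exact menger_step F y J i hJk P Q R (P' (J + 1)) hP hQ hPQ ⟨Q', q1, q2, q3, hne.symm⟩
          hR hRy hRu hi1 hi2 hmaxQ
      · obtain ⟨A, B, a1, a2, a3, a4, a5⟩ := menger_step F y J i hJk Q P R (P' (J + 1)) hQ hP
          (fun t h1 h2 => (hPQ t h1 h2).symm) ⟨P', p1, p2, p3, rfl⟩ hR hRy hRu hi1 hi2 hmaxP
        exact ⟨B, A, a2, a1, a4, a3, fun t h1 h2 => (a5 t h1 h2).symm⟩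
    · have hj2 : ¬ J + 1 ≤ J := by omega
      refine ⟨fun t => if t ≤ J then P t else P' t, fun t => if t ≤ J then Q t else Q' t,
        hP.join (p1.mono hJk) p3.symm, hQ.join (q1.mono hJk) q3.symm, ?_, ?_, ?_⟩
      · simp only [hj2, if_false]
        exact ⟨P', p1, p2, rfl⟩
      · simp only [hj2, if_false]
        exact ⟨Q', q1, q2, rfl⟩
      · intro t ht1 ht2
        rcases Nat.lt_or_ge J t with h1 | h1
        · have h2 : t = J + 1 := by omega
          subst h2
          simp only [hj2, if_false]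
          exact hne
        · simp only [h1, if_true]
          exact hPQ t ht1 h1

/-- **a cut vertex** -/
theorem exists_cut (hG : NoC G k) (hk : 2 ≤ k) (F : Lev G x k) (y : V) :
    ∃ j, 1 ≤ j ∧ j < k ∧ ∀ v w, Useful F y j v → Useful F y j w → v = w := by
  by_contra hcon
  push Not at hcon
  obtain ⟨l, rfl⟩ : ∃ l, k = l + 2 := ⟨k - 2, by omega⟩
  obtain ⟨P, Q, hP, hQ, ⟨P', p1, p2, p3⟩, ⟨Q', q1, q2, q3⟩, hPQ⟩ := menger F y
    (fun j h1 h2 => by
      obtain ⟨v, w, h3, h4, h5⟩ := hcon j h1 h2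
      exact ⟨v, w, h3, h4, h5⟩) l (by omega)
  have g1 := hP.join p1 p3.symm
  have g2 := hQ.join q1 q3.symm
  have hl : ¬ l + 2 ≤ l + 1 := by omega
  refine glue hG (l + 2) (l + 2) (by omega) (by omega) (by ring) _ _ (fun i hi => (g1.2 i hi).1)
    (fun i hi => (g2.2 i hi).1) ?_ ?_ ?_ ?_ ?_
  · exact g1.1.trans g2.1.symm
  · simp only [hl, if_false]
    rw [p2, q2]
  · intro i j hi hj hij
    have h1 := g1.level i hi
    have h2 := g1.level j hj
    rw [← h1, ← h2]
    exact congrArg F.L hij
  · intro i j hi hj hij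
    have h1 := g2.level i hi
    have h2 := g2.level j hj
    rw [← h1, ← h2]
    exact congrArg F.L hij
  · intro i j hi hi' hj hj' hij
    have h1 := g1.level i hi'.le
    have h2 := g2.level j hj'.le
    have h3 : i = j := by
      rw [← h1, ← h2]
      exact congrArg F.L hij
    subst h3
    have h4 : i ≤ l + 1 := by omega
    simp only [h4, if_true] at hij
    exact hPQ i hi h4 hij

theorem gp_k_le (hG : NoC G k) (hk : 2 ≤ k) (F : Lev G x k) (y : V) :
    gp F k y ≤ (k - 1) ^ (k - 2) := by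
  classical
  obtain ⟨j, hj1, hjk, hcut⟩ := exists_cut hG hk F y
  -- vertices on good paths to useful vertices are useful
  have huse : ∀ t v w, t < k → Useful F y (t + 1) v → G.Adj v w → gp F t w ≠ 0 →
      Useful F y t w := by
    rintro t v w ht ⟨P, h1, h2, h3⟩ h4 h5
    obtain ⟨Q, hQ, hQw⟩ := gp_path F t w h5
    refine ⟨fun s => if s ≤ t then Q s else P s, ⟨?_, fun s hs => ?_⟩, ?_, ?_⟩
    · simp only [Nat.zero_le, if_true]
      exact hQ.1
    · rcases lt_trichotomy s t with h6 | h6 | h6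
      · have h7 : s ≤ t := h6.le
        have h8 : s + 1 ≤ t := h6
        simp only [h7, h8, if_true]
        exact hQ.2 s h6
      · subst h6
        have h8 : ¬ s + 1 ≤ s := by omega
        simp only [le_refl, if_true, h8, if_false]
        rw [hQw]
        refine ⟨?_, (h1.2 s hs).2⟩
        rw [h3]
        exact h4.symm
      · have h7 : ¬ s ≤ t := by omega
        have h8 : ¬ s + 1 ≤ t := by omega
        simp only [h7, h8, if_false]
        exact h1.2 s hs
    · have h6 : ¬ k ≤ t := by omega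
      simp only [h6, if_false]
      exact h2
    · simp only [le_refl, if_true]
      exact hQw
  have key : ∀ t v, j + 1 + t ≤ k → Useful F y (j + 1 + t) v →
      gp F (j + 1 + t) v ≤ (k - 1) ^ t * (k - 1) ^ (j - 1) := by
    intro t
    induction t with
    | zero =>
      intro v hv hu
      rw [add_zero] at hu ⊢
      rw [gp, pow_zero, one_mul]
      split_ifs with h1
      · by_cases h2 : ∃ w ∈ univ.filter (G.Adj v), gp F j w ≠ 0
        · obtain ⟨w, hw, hw0⟩ := h2
          have hUw := huse j v w (by omega) hu (mem_filter.1 hw).2 hw0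
          rw [sum_eq_single w]
          · obtain ⟨i, rfl⟩ : ∃ i, j = i + 1 := ⟨j - 1, by omega⟩
            exact gp_le F i w
          · intro w' hw' hne
            by_contra h3
            exact hne (hcut _ _ (huse j v w' (by omega) hu (mem_filter.1 hw').2 h3) hUw)
          · intro h3
            exact absurd hw h3
        · push Not at h2
          rw [sum_eq_zero h2]
          exact Nat.zero_le _
      · exact Nat.zero_le _
    | succ t ih =>
      intro v hv hu
      have e : j + 1 + (t + 1) = j + 1 + t + 1 := by ring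
      rw [e] at hu ⊢
      rw [gp]
      split_ifs with h1
      · refine (sum_nb F v (gp F (j + 1 + t)) ((k - 1) ^ t * (k - 1) ^ (j - 1)) ?_
          (fun u hvu => ?_)).trans ?_
        · intro u hu'
          rw [gp_level F _ u hu', h1.1]
        · by_cases h2 : gp F (j + 1 + t) u = 0
          · rw [h2]; exact Nat.zero_le _
          · exact ih u (by omega) (huse _ v u (by omega) hu hvu h2)
        · have h3 := h1.2
          calc bd F v * ((k - 1) ^ t * (k - 1) ^ (j - 1)) ≤
              (k - 1) * ((k - 1) ^ t * (k - 1) ^ (j - 1)) := Nat.mul_le_mul_right _ h3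
            _ = _ := by rw [pow_succ]; ring
      · exact Nat.zero_le _
  by_cases h0 : gp F k y = 0
  · rw [h0]; exact Nat.zero_le _
  · obtain ⟨P, hP, hPy⟩ := gp_path F k y h0
    have h1 := key (k - (j + 1)) y (by omega) ⟨P, hP, hPy, by
      rw [show j + 1 + (k - (j + 1)) = k by omega]; exact hPy⟩
    rw [show j + 1 + (k - (j + 1)) = k by omega, ← pow_add] at h1
    rwa [show k - (j + 1) + (j - 1) = k - 2 by omega] at h1

end Pool.Agent.V5helper3.EC
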