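import Pool.Agent.V5helper3.EC.Theta

set_option autoImplicit false

/-! # Levels of the breadth first search: no dense bipartite graph between two levels -/

namespace Pool.Agent.V5helper3.EC

open Finset

variable {V : Type}

/-- the levels of a breadth first search and a choice of parents -/
structure Lev (G : SimpleGraph V) (x : V) (k : ℕ) where
  L : V → ℕ
  par : V → V
  root : ∀ v, L v = 0 ↔ v = x
  step : ∀ u v, G.Adj u v → L v ≤ L u + 1
  parent : ∀ v, 1 ≤ L v → L v ≤ k → G.Adj v (par v) ∧ L (par v) + 1 = L v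

theorem Lev.iter {G : SimpleGraph V} {x : V} {k : ℕ} (F : Lev G x k) (v : V) (hv : F.L v ≤ k)
    (i : ℕ) : i ≤ F.L v → F.L (F.par^[i] v) + i = F.L v := by
  induction i with
  | zero => intro _; simp
  | succ i ih =>
    intro hi
    have h1 := ih (by omega)
    rw [Function.iterate_succ_apply']
    have h2 := (F.parent (F.par^[i] v) (by omega) (by omega)).2
    omega

theorem Lev.adj_iter {G : SimpleGraph V} {x : V} {k : ℕ} (F : Lev G x k) (v : V)
    (hv : F.L v ≤ k) (i : ℕ) (hi : i < F.L v) : G.Adj (F.par^[i] v) (F.par^[i + 1] v) := by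
  have h1 := F.iter v hv i hi.le
  rw [Function.iterate_succ_apply']
  exact (F.parent (F.par^[i] v) (by omega) (by omega)).1

theorem theta_false {G : SimpleGraph V} {x : V} {k : ℕ} (hG : NoC G k) (F : Lev G x k) (j : ℕ)
    (hj : 1 ≤ j) (hjk : j < k) (M ρ : ℤ) (hkM : (k : ℤ) ≤ M) (hρ : 1 ≤ ρ) (hρM : ρ + 2 ≤ M)
    (c : ℤ → V) (hper : ∀ p, c (p + 2 * M) = c p) (hinj : ∀ p q, c p = c q → 2 * M ∣ p - q)
    (hadj : ∀ p, G.Adj (c p) (c (p + 1))) (hch : G.Adj (c 0) (c (2 * ρ + 1)))
    (hY : ∀ a, F.L (c (2 * a)) = j) (hZ : ∀ p, j ≤ F.L (c p)) : False := by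
  classical
  have hx : ∀ a, F.par^[j] (c (2 * a)) = x := by
    intro a
    have h1 := F.iter (c (2 * a)) (by rw [hY]; omega) j (by rw [hY])
    rw [hY] at h1
    exact (F.root _).1 (by omega)
  have hex : ∃ h, ∀ a b, F.par^[h] (c (2 * a)) = F.par^[h] (c (2 * b)) :=
    ⟨j, fun a b => by rw [hx, hx]⟩
  obtain ⟨h, hh, hmin⟩ : ∃ h, (∀ a b, F.par^[h] (c (2 * a)) = F.par^[h] (c (2 * b))) ∧
      ∀ m < h, ¬ ∀ a b, F.par^[m] (c (2 * a)) = F.par^[m] (c (2 * b)) :=
    ⟨Nat.find hex, Nat.find_spec hex, fun m hm => Nat.find_min hex hm⟩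
  have hhj : h ≤ j := by
    by_contra hcon
    exact hmin j (by omega) (fun a b => by rw [hx, hx])
  have hh1 : 1 ≤ h := by
    by_contra hcon
    have h0 : h = 0 := by omega
    subst h0
    have h2 := hh 0 1
    simp only [Function.iterate_zero, id_eq] at h2
    have h3 := hinj _ _ h2
    have h4 := Int.eq_zero_of_abs_lt_dvd h3 (by rw [abs_lt]; constructor <;> omega)
    omega
  have h2 := hmin (h - 1) (by omega)
  push Not at h2
  obtain ⟨a₀, b₀, h2⟩ := h2
  have key := theta hG h hh1 (by omega) M ρ hkM hρ hρM c hper hinj hadj hch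
    (fun v => F.par^[h - 1] v = F.par^[h - 1] (c (2 * a₀))) ?_ a₀ b₀
  · exact h2 (key.1 rfl).symm
  · intro a b ha hb
    have hLa : ∀ i, i ≤ h → F.L (F.par^[i] (c (2 * a))) = j - i := by
      intro i hi
      have h1 := F.iter (c (2 * a)) (by rw [hY]; omega) i (by rw [hY]; omega)
      rw [hY] at h1
      omega
    have hLb : ∀ i, i ≤ h → F.L (F.par^[i] (c (2 * b))) = j - i := by
      intro i hi
      have h1 := F.iter (c (2 * b)) (by rw [hY]; omega) i (by rw [hY]; omega)
      rw [hY] at h1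
      omega
    have hne : ∀ i, i < h → F.par^[i] (c (2 * a)) ≠ F.par^[i] (c (2 * b)) := by
      intro i hi h3
      apply hb
      rw [← ha]
      have e : h - 1 = (h - 1 - i) + i := by omega
      rw [e, Function.iterate_add_apply, Function.iterate_add_apply, h3]
    have aa : ∀ i, i < h → G.Adj (F.par^[i] (c (2 * a))) (F.par^[i + 1] (c (2 * a))) := by
      intro i hi
      exact F.adj_iter _ (by rw [hY]; omega) i (by rw [hY]; omega)
    have ab : ∀ i, i < h → G.Adj (F.par^[i + 1] (c (2 * b))) (F.par^[i] (c (2 * b))) := by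
      intro i hi
      exact (F.adj_iter _ (by rw [hY]; omega) i (by rw [hY]; omega)).symm
    refine ⟨fun i => if i ≤ h then F.par^[i] (c (2 * a)) else F.par^[2 * h - i] (c (2 * b)),
      ?_, ?_, ?_, ?_, ?_⟩
    · simp
    · have h3 : ¬ 2 * h ≤ h := by omega
      simp [h3]
    · intro i hi
      by_cases h3 : i < h
      · have h4 : i ≤ h := h3.le
        have h5 : i + 1 ≤ h := h3
        simp only [h4, h5, if_true]
        exact aa i h3
      · by_cases h4 : i = h
        · subst h4
          have h5 : ¬ i + 1 ≤ i := by omega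
          simp only [le_refl, if_true, h5, if_false]
          have e : 2 * i - (i + 1) = i - 1 := by omega
          rw [e, hh a b]
          have h6 := ab (i - 1) (by omega)
          rw [Nat.sub_add_cancel hh1] at h6
          exact h6
        · have h5 : ¬ i ≤ h := by omega
          have h6 : ¬ i + 1 ≤ h := by omega
          simp only [h5, h6, if_false]
          have h7 := ab (2 * h - (i + 1)) (by omega)
          have e : 2 * h - (i + 1) + 1 = 2 * h - i := by omega
          rw [e] at h7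
          exact h7
    · intro i i' hi hi' hij
      simp only at hij
      split_ifs at hij with h3 h4 h4
      · have h5 := hLa i h3
        have h6 := hLa i' h4
        rw [hij, h6] at h5
        omega
      · exfalso
        have h5 := hLa i h3
        have h6 := hLb (2 * h - i') (by omega)
        rw [hij, h6] at h5
        have h7 : 2 * h - i' = i := by omega
        rw [h7] at hij
        exact hne i (by omega) hij
      · exfalso
        have h5 := hLa i' h4
        have h6 := hLb (2 * h - i) (by omega)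
        rw [← hij, h6] at h5
        have h7 : 2 * h - i = i' := by omega
        rw [h7] at hij
        exact hne i' (by omega) hij.symm
      · have h5 := hLb (2 * h - i) (by omega)
        have h6 := hLb (2 * h - i') (by omega)
        rw [hij, h6] at h5
        omega
    · intro i hi hi' p h3
      simp only at h3
      have h4 : F.L (if i ≤ h then F.par^[i] (c (2 * a)) else F.par^[2 * h - i] (c (2 * b))) < j := by
        split_ifs with h5
        · rw [hLa i h5]; omega
        · rw [hLb _ (by omega)]; omega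
      have h5 := hZ p
      rw [← h3] at h5
      omega

theorem exists_maximal_nat (p : ℕ → Prop) (h0 : p 0) (B : ℕ) (hB : ∀ n, p n → n ≤ B) :
    ∃ n, p n ∧ ∀ m, p m → m ≤ n := by
  classical
  exact ⟨Nat.findGreatest p B, Nat.findGreatest_spec (Nat.zero_le B) h0,
    fun m hm => Nat.le_findGreatest (hB m hm) hm⟩

open Classical in
/-- **the level lemma** -/
theorem level_lemma {G : SimpleGraph V} {x : V} {k : ℕ} (hk : 3 ≤ k) (hG : NoC G k)
    (F : Lev G x k) (j : ℕ) (hj : 1 ≤ j) (hjk : j < k) (Y Z : V → Prop)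
    (hY : ∀ v, Y v → F.L v = j) (hZ : ∀ v, Z v → j ≤ F.L v) (hYZ : ∀ v, Y v → ¬ Z v)
    (S : Finset V) (hS : S.Nonempty)
    (hdeg : ∀ v ∈ S, k ≤ #(S.filter fun w => G.Adj v w ∧ (Y v ∧ Z w ∨ Z v ∧ Y w))) : False := by
  set H : V → V → Prop := fun v w => w ∈ S ∧ G.Adj v w ∧ (Y v ∧ Z w ∨ Z v ∧ Y w) with hH
  -- a longest path
  have hp0 : ∃ P : ℕ → V, (∀ i ≤ 0, P i ∈ S) ∧ (∀ i < 0, H (P i) (P (i + 1))) ∧
      ∀ i j, i ≤ 0 → j ≤ 0 → P i = P j → i = j := by
    obtain ⟨v, hv⟩ := hS
    exact ⟨fun _ => v, fun i _ => hv, fun i hi => absurd hi (by omega), fun i j hi hj _ => by omega⟩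
  obtain ⟨m, ⟨P, hP1, hP2, hP3⟩, hmax⟩ := exists_maximal_nat
    (fun m => ∃ P : ℕ → V, (∀ i ≤ m, P i ∈ S) ∧ (∀ i < m, H (P i) (P (i + 1))) ∧
      ∀ i j, i ≤ m → j ≤ m → P i = P j → i = j) hp0 (#S) (by
      rintro n ⟨P, h1, _, h3⟩
      have h4 : #(range (n + 1)) ≤ #S := card_le_card_of_injOn P
        (fun i hi => h1 i (by rw [coe_range, Set.mem_Iio] at hi; omega))
        (fun i hi i' hi' h => h3 i i' (by rw [coe_range, Set.mem_Iio] at hi; omega)
          (by rw [coe_range, Set.mem_Iio] at hi'; omega) h)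
      rw [card_range] at h4
      omega)
  have hPadj : ∀ i < m, G.Adj (P i) (P (i + 1)) := fun i hi => (hP2 i hi).2.1
  -- all neighbours of `P 0` are on the path
  have hon : ∀ w, H (P 0) w → ∃ i, 1 ≤ i ∧ i ≤ m ∧ P i = w := by
    intro w hw
    by_contra hcon
    push Not at hcon
    have hw0 : w ≠ P 0 := hw.2.1.ne'
    have hw' : H w (P 0) := by
      refine ⟨hP1 0 (by omega), hw.2.1.symm, ?_⟩
      rcases hw.2.2 with h | h
      · exact Or.inr ⟨h.2, h.1⟩
      · exact Or.inl ⟨h.2, h.1⟩
    have h1 := hmax (m + 1) ⟨fun i => if i = 0 then w else P (i - 1), ?_, ?_, ?_⟩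
    · omega
    · intro i hi
      by_cases h2 : i = 0
      · simp only [h2, if_true]
        exact hw.1
      · simp only [h2, if_false]
        exact hP1 _ (by omega)
    · intro i hi
      by_cases h2 : i = 0
      · subst h2
        simpa using hw'
      · have h3 : i + 1 ≠ 0 := by omega
        simp only [h2, h3, if_false]
        have h4 := hP2 (i - 1) (by omega)
        have e : i - 1 + 1 = i + 1 - 1 := by omega
        rw [e] at h4
        exact h4
    · intro i i' hi hi' hii
      simp only at hii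
      split_ifs at hii with h2 h3 h3
      · omega
      · exfalso
        rcases Nat.eq_or_lt_of_le (show 1 ≤ i' by omega) with h4 | h4
        · subst h4
          exact hw0 hii
        · exact hcon (i' - 1) (by omega) (by omega) hii.symm
      · exfalso
        rcases Nat.eq_or_lt_of_le (show 1 ≤ i by omega) with h4 | h4
        · subst h4
          exact hw0 hii.symm
        · exact hcon (i - 1) (by omega) (by omega) hii
      · have := hP3 _ _ (by omega) (by omega) hii
        omega
  -- the two sides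
  obtain ⟨A, B, hAB, hA0⟩ : ∃ A B : V → Prop, (A = Y ∧ B = Z ∨ A = Z ∧ B = Y) ∧ A (P 0) := by
    have h0 := hdeg (P 0) (hP1 0 (by omega))
    have h1 : (S.filter fun w => G.Adj (P 0) w ∧ (Y (P 0) ∧ Z w ∨ Z (P 0) ∧ Y w)).Nonempty := by
      rw [← card_pos]; omega
    obtain ⟨w, hw⟩ := h1
    rw [mem_filter] at hw
    rcases hw.2.2 with h | h
    · exact ⟨Y, Z, Or.inl ⟨rfl, rfl⟩, h.1⟩
    · exact ⟨Z, Y, Or.inr ⟨rfl, rfl⟩, h.1⟩
  have hex : ∀ v, A v → ¬ B v := by
    rcases hAB with ⟨rfl, rfl⟩ | ⟨rfl, rfl⟩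
    · exact hYZ
    · exact fun v h1 h2 => hYZ v h2 h1
  have hHAB : ∀ v w, H v w → (A v ∧ B w ∨ B v ∧ A w) := by
    intro v w h
    rcases hAB with ⟨rfl, rfl⟩ | ⟨rfl, rfl⟩
    · exact h.2.2
    · exact h.2.2.symm
  have hpar : ∀ i, 2 * i ≤ m → A (P (2 * i)) := by
    intro i
    induction i with
    | zero => intro _; exact hA0
    | succ i ih =>
      intro hi
      have h1 := ih (by omega)
      have h2 := hHAB _ _ (hP2 (2 * i) (by omega))
      have h3 := hHAB _ _ (hP2 (2 * i + 1) (by omega))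
      have e : 2 * (i + 1) = 2 * i + 1 + 1 := by ring
      rw [e]
      rcases h2 with h2 | h2
      · rcases h3 with h3 | h3
        · exact absurd h2.2 (hex _ h3.1)
        · exact h3.2
      · exact absurd h2.1 (hex _ h1)
  have hpar' : ∀ i, 2 * i + 1 ≤ m → B (P (2 * i + 1)) := by
    intro i hi
    have h1 := hpar i (by omega)
    rcases hHAB _ _ (hP2 (2 * i) (by omega)) with h2 | h2
    · exact h2.2
    · exact absurd h2.1 (hex _ h1)
  -- the chords at `P 0`
  set J := (range (m + 1)).filter fun r => 2 * r + 1 ≤ m ∧ G.Adj (P 0) (P (2 * r + 1)) with hJ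
  have hJk : k ≤ #J := by
    refine (hdeg (P 0) (hP1 0 (by omega))).trans ?_
    refine (card_le_card ?_).trans (card_image_le (s := J) (f := fun r => P (2 * r + 1)))
    intro w hw
    rw [mem_filter] at hw
    have hw' : H (P 0) w := ⟨hw.1, hw.2⟩
    obtain ⟨i, hi1, him, rfl⟩ := hon w hw'
    rcases Nat.even_or_odd i with ⟨r, hr⟩ | ⟨r, hr⟩
    · exfalso
      have h1 : A (P i) := by
        have := hpar r (by omega)
        rwa [show 2 * r = i by omega] at this
      rcases hHAB _ _ hw' with h2 | h2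
      · exact hex _ h1 h2.2
      · exact hex _ hA0 h2.1
    · rw [mem_image]
      refine ⟨r, ?_, by rw [hr]⟩
      rw [hJ, mem_filter, mem_range]
      exact ⟨by omega, by omega, by rw [← hr]; exact hw.2.1⟩
  have hJne : J.Nonempty := by rw [← card_pos]; omega
  set R := J.max' hJne with hR
  have hRJ : R ∈ J := J.max'_mem hJne
  have hRk : k ≤ R + 1 := by
    have h1 : J ⊆ range (R + 1) := by
      intro r hr
      rw [mem_range]
      have := J.le_max' r hr
      omega
    have h2 := card_le_card h1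
    rw [card_range] at h2
    omega
  obtain ⟨ρ, hρJ, hρ0, hρR⟩ : ∃ ρ ∈ J, 1 ≤ ρ ∧ ρ < R := by
    have h1 : 1 ≤ #((J.erase 0).erase R) := by
      have h2 := pred_card_le_card_erase (s := J) (a := 0)
      have h3 := pred_card_le_card_erase (s := J.erase 0) (a := R)
      omega
    obtain ⟨ρ, hρ⟩ := card_pos.1 (show 0 < #((J.erase 0).erase R) by omega)
    rw [mem_erase, mem_erase] at hρ
    have h2 := J.le_max' ρ hρ.2.2
    exact ⟨ρ, hρ.2.2, by omega, by omega⟩
  rw [hJ, mem_filter] at hRJ hρJ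
  obtain ⟨-, hRm, hRadj⟩ := hRJ
  obtain ⟨-, hρm, hρadj⟩ := hρJ
  -- the cycle
  set n : ℤ := 2 * ((R : ℤ) + 1) with hn
  have hn0 : 0 < n := by omega
  set c : ℤ → V := fun p => P (p % n).toNat with hc
  have hmod : ∀ p : ℤ, 0 ≤ p % n ∧ p % n < n := fun p =>
    ⟨Int.emod_nonneg _ hn0.ne', Int.emod_lt_of_pos _ hn0⟩
  have hcper : ∀ p, c (p + n) = c p := by
    intro p
    simp only [hc, Int.add_emod_right]
  have hcinj : ∀ p q, c p = c q → n ∣ p - q := by
    intro p q h
    have h1 := hmod p
    have h2 := hmod q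
    have h3 := hP3 _ _ (by omega) (by omega) h
    have h4 : p % n = q % n := by omega
    exact Int.ModEq.dvd (Int.ModEq.symm h4)
  have hcadj : ∀ p, G.Adj (c p) (c (p + 1)) := by
    intro p
    have h1 := hmod p
    rcases lt_or_ge (p % n + 1) n with h2 | h2
    · have h3 : (p + 1) % n = p % n + 1 := by
        rw [Int.add_emod, Int.emod_eq_of_lt (show (0 : ℤ) ≤ 1 by norm_num) (by omega)]
        exact Int.emod_eq_of_lt (by omega) h2
      simp only [hc]
      rw [h3, Int.toNat_add h1.1 (by norm_num)]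
      exact hPadj _ (by omega)
    · have h3 : p % n = n - 1 := by omega
      have h4 : (p + 1) % n = 0 := by
        rw [Int.add_emod, h3, Int.emod_eq_of_lt (show (0 : ℤ) ≤ 1 by norm_num) (by omega)]
        rw [show n - 1 + 1 = n by ring, Int.emod_self]
      simp only [hc]
      rw [h3, h4]
      have e : (n - 1).toNat = 2 * R + 1 := by omega
      rw [e]
      exact hRadj.symm
  have hceven : ∀ a : ℤ, A (c (2 * a)) := by
    intro a
    have h1 := hmod (2 * a)
    have h2 : (2 * a) % n = 2 * (a % ((R : ℤ) + 1)) := by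
      rw [hn, Int.mul_emod_mul_of_pos _ _ (by norm_num)]
    have h3 := Int.emod_nonneg a (show (R : ℤ) + 1 ≠ 0 by omega)
    have h4 := hpar (a % ((R : ℤ) + 1)).toNat (by omega)
    simp only [hc]
    rw [h2]
    have e : (2 * (a % ((R : ℤ) + 1))).toNat = 2 * (a % ((R : ℤ) + 1)).toNat := by omega
    rw [e]
    exact h4
  have hcodd : ∀ a : ℤ, B (c (2 * a + 1)) := by
    intro a
    have h1 := hmod (2 * a)
    have h2 : (2 * a) % n = 2 * (a % ((R : ℤ) + 1)) := by
      rw [hn, Int.mul_emod_mul_of_pos _ _ (by norm_num)]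
    have h3 := Int.emod_nonneg a (show (R : ℤ) + 1 ≠ 0 by omega)
    have h5 : (2 * a + 1) % n = 2 * (a % ((R : ℤ) + 1)) + 1 := by
      rw [Int.add_emod, Int.emod_eq_of_lt (show (0 : ℤ) ≤ 1 by norm_num) (by omega), h2]
      exact Int.emod_eq_of_lt (by omega) (by omega)
    have h4 := hpar' (a % ((R : ℤ) + 1)).toNat (by
      have := (hmod (2 * a + 1)).2
      omega)
    simp only [hc]
    rw [h5]
    have e : (2 * (a % ((R : ℤ) + 1)) + 1).toNat = 2 * (a % ((R : ℤ) + 1)).toNat + 1 := by omega
    rw [e]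
    exact h4
  have hc0 : c 0 = P 0 := by simp [hc]
  have hcρ : c (2 * (ρ : ℤ) + 1) = P (2 * ρ + 1) := by
    simp only [hc]
    rw [Int.emod_eq_of_lt (by omega) (by omega)]
    congr 1
  have hcchord : G.Adj (c 0) (c (2 * (ρ : ℤ) + 1)) := by
    rw [hc0, hcρ]; exact hρadj
  have hall : ∀ p, A (c p) ∨ B (c p) := by
    intro p
    rcases Int.even_or_odd p with ⟨a, ha⟩ | ⟨a, ha⟩
    · left
      rw [show p = 2 * a by omega]
      exact hceven a
    · right
      rw [ha]
      exact hcodd a
  have hYZ' : ∀ v, Y v ∨ Z v → j ≤ F.L v := by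
    rintro v (h | h)
    · rw [hY v h]
    · exact hZ v h
  rcases hAB with ⟨rfl, rfl⟩ | ⟨rfl, rfl⟩
  · exact theta_false hG F j hj hjk ((R : ℤ) + 1) ρ (by omega) (by omega) (by omega) c
      (by rw [← hn]; exact hcper) (by rw [← hn]; exact hcinj) hcadj hcchord
      (fun a => hY _ (hceven a)) (fun p => hYZ' _ (hall p))
  · refine theta_false hG F j hj hjk ((R : ℤ) + 1) ρ (by omega) (by omega) (by omega)
      (fun p => c (2 * ρ + 1 - p)) ?_ ?_ ?_ ?_ ?_ ?_
    · intro p
      rw [← hcper (2 * ρ + 1 - (p + 2 * ((R : ℤ) + 1)))]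
      congr 1
      rw [hn]
      ring
    · intro p q h
      have h1 := hcinj _ _ h
      rw [← hn]
      have e : p - q = -((2 * ρ + 1 - p) - (2 * ρ + 1 - q)) := by ring
      rw [e]
      exact (dvd_neg).2 h1
    · intro p
      have h1 := (hcadj (2 * ρ + 1 - (p + 1))).symm
      have e : 2 * (ρ : ℤ) + 1 - (p + 1) + 1 = 2 * ρ + 1 - p := by ring
      rw [e] at h1
      exact h1
    · simp only [sub_zero, sub_self]
      exact hcchord.symm
    · intro a
      refine hY _ ?_
      have e : 2 * (ρ : ℤ) + 1 - 2 * a = 2 * (ρ - a) + 1 := by ring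
      rw [e]
      exact hcodd _
    · intro p
      exact hYZ' _ (hall _).symm

end Pool.Agent.V5helper3.EC
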