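import Pool.Agent.V5helper3.EC.Count
import Pool.Agent.N721.SR.C2k

set_option autoImplicit false
set_option linter.unusedSectionVars false

/-! # The bound for graphs without `C_{2k}` -/

namespace Pool.Agent.V5helper3.EC

open Finset Pool.Agent.Q299.CY Pool.Agent.N721.SR

theorem dist_step {V : Type} (G : SimpleGraph V) (x u v : V) (hu : G.Reachable x u)
    (h : G.Adj u v) : G.Reachable x v ∧ G.dist x v ≤ G.dist x u + 1 := by
  obtain ⟨p, hp⟩ := hu.exists_walk_length_eq_dist
  refine ⟨hu.trans h.reachable, ?_⟩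
  have h1 := SimpleGraph.dist_le (p.concat h)
  rw [SimpleGraph.Walk.length_concat, hp] at h1
  exact h1

open Classical in
/-- the levels of the breadth first search up to the level `k` -/
noncomputable def bfsL {V : Type} (G : SimpleGraph V) (x : V) (k : ℕ) (v : V) : ℕ :=
  if G.Reachable x v ∧ G.dist x v ≤ k then G.dist x v else k + 1

theorem bfs_parent {V : Type} (G : SimpleGraph V) (x : V) (k : ℕ) (v : V)
    (h1 : 1 ≤ bfsL G x k v) (h2 : bfsL G x k v ≤ k) :
    ∃ w, G.Adj v w ∧ bfsL G x k w + 1 = bfsL G x k v := by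
  have hc : G.Reachable x v ∧ G.dist x v ≤ k := by
    by_contra hcon
    unfold bfsL at h2
    rw [if_neg hcon] at h2
    omega
  have hv : bfsL G x k v = G.dist x v := by
    unfold bfsL
    rw [if_pos hc]
  rw [hv] at h1 ⊢
  obtain ⟨p, hp⟩ := hc.1.exists_walk_length_eq_dist
  obtain ⟨d, hd⟩ : ∃ d, G.dist x v = d + 1 := ⟨G.dist x v - 1, by omega⟩
  rw [hd] at hp
  have hadj : G.Adj (p.getVert d) v := by
    have h3 := p.adj_getVert_succ (i := d) (by omega)
    have h4 : p.getVert (d + 1) = v := by rw [← hp, SimpleGraph.Walk.getVert_length]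
    rwa [h4] at h3
  have hw1 : G.Reachable x (p.getVert d) := ⟨p.take d⟩
  have hw2 : G.dist x (p.getVert d) ≤ d := by
    have h3 := SimpleGraph.dist_le (p.take d)
    rw [SimpleGraph.Walk.take_length] at h3
    exact h3.trans (min_le_left _ _)
  have hw3 := (dist_step G x _ v hw1 hadj).2
  have hw4 : bfsL G x k (p.getVert d) = G.dist x (p.getVert d) := by
    unfold bfsL
    rw [if_pos ⟨hw1, by omega⟩]
  exact ⟨p.getVert d, hadj.symm, by omega⟩

open Classical in
noncomputable def bfs {V : Type} (G : SimpleGraph V) (x : V) (k : ℕ) : Lev G x k where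
  L := bfsL G x k
  par v := if h : 1 ≤ bfsL G x k v ∧ bfsL G x k v ≤ k then
    (bfs_parent G x k v h.1 h.2).choose else v
  root v := by
    unfold bfsL
    constructor
    · intro h
      split_ifs at h with h1
      · exact (h1.1.dist_eq_zero_iff.1 h).symm
    · rintro rfl
      rw [if_pos ⟨SimpleGraph.Reachable.refl _, by simp⟩]
      simp
  step u v h := by
    have hle : bfsL G x k v ≤ k + 1 := by
      unfold bfsL
      split_ifs with h1
      · omega
      · exact le_rfl
    by_cases h1 : G.Reachable x u ∧ G.dist x u ≤ k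
    · have h2 := dist_step G x u v h1.1 h
      have h3 : bfsL G x k u = G.dist x u := by
        unfold bfsL
        rw [if_pos h1]
      rw [h3]
      by_cases h4 : G.dist x v ≤ k
      · have h5 : bfsL G x k v = G.dist x v := by
          unfold bfsL
          rw [if_pos ⟨h2.1, h4⟩]
        omega
      · omega
    · have h3 : bfsL G x k u = k + 1 := by
        unfold bfsL
        rw [if_neg h1]
      omega
  parent v h1 h2 := by
    rw [dif_pos ⟨h1, h2⟩]
    exact (bfs_parent G x k v h1 h2).choose_spec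

open Pool.Agent.H268R2.LB in
theorem noC_of_free {V : Type} {G : SimpleGraph V} {k : ℕ} (hk : 2 ≤ k)
    (hG : (SimpleGraph.cycleGraph (2 * k)).Free G) : NoC G k := by
  intro f h1 h2 h3
  obtain ⟨w, q, hq, hl⟩ := cycle_of_fun (G := G) f (2 * k) (by omega) h1 h2 h3
  exact hG ((SimpleGraph.cycleGraph_isContained_iff (by omega)).2 ⟨w, q, hq, hl⟩)

theorem core {V : Type} [Fintype V] [DecidableEq V] (G : SimpleGraph V) {k : ℕ} (hk : 3 ≤ k)
    (hG : (SimpleGraph.cycleGraph (2 * k)).Free G) (hn : 0 < Fintype.card V) {D : ℝ}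
    (hD1 : 1 ≤ D) (hD : ∀ v, ee G {v} univ ≤ D) :
    (ee G univ univ / Fintype.card V) ^ k ≤
      (Fintype.card V : ℝ) * ((k - 1 : ℕ) : ℝ) ^ (k - 2) +
      k * (((k - 1 : ℕ) : ℝ) ^ (k + 1) * (10 + k)) * D ^ (k - 1) := by
  classical
  have hn0 : (0 : ℝ) < Fintype.card V := by exact_mod_cast hn
  have hDm : MaxDeg G D := by
    intro v
    refine le_trans (le_of_eq ?_) (hD v)
    rw [ee_eq, sum_singleton, ← sum_boole]
    rfl
  have hNoC := noC_of_free (by omega) hG
  have h1 := blakley_roy (A := ad G) ad_nonneg ad_symm (U := univ)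
    (fun x y h => absurd (mem_univ x) h) (by
      have : Nonempty V := Fintype.card_pos_iff.1 hn
      exact univ_nonempty) (k - 1)
  rw [Nat.sub_add_cancel (by omega : 1 ≤ k), card_univ] at h1
  have h2 : ∑ x, ∑ y, ad G x y = ee G univ univ := by
    rw [ee_eq]
    rfl
  rw [h2] at h1
  have h3 : ∑ x, uw (ad G) k x ≤ ∑ _x : V, ((Fintype.card V : ℝ) * ((k - 1 : ℕ) : ℝ) ^ (k - 2) +
      k * (((k - 1 : ℕ) : ℝ) ^ (k + 1) * (10 + k)) * D ^ (k - 1)) :=
    sum_le_sum fun x _ => walks_le hk hNoC (bfs G x k) hD1 hDm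
  rw [sum_const, card_univ, nsmul_eq_mul] at h3
  exact le_of_mul_le_mul_left (h1.trans h3) hn0

theorem main (k : ℕ) (hk : 3 ≤ k) (ε : ℝ) (hε : 0 < ε) : ∃ N : ℕ, ∀ n : ℕ, N ≤ n →
    ((SimpleGraph.extremalNumber n (SimpleGraph.cycleGraph (2 * k)) : ℕ) : ℝ) ≤
      (((k : ℝ) - 1) ^ (1 - 2 / (k : ℝ)) / 2 + ε) * (n : ℝ) ^ (1 + 1 / (k : ℝ)) := by
  classical
  have hk0 : (0 : ℝ) < k := by
    have : 0 < k := by omega
    exact_mod_cast this
  have hk3 : (3 : ℝ) ≤ k := by exact_mod_cast hk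
  set α : ℝ := 1 / (k : ℝ) with hα
  have hα0 : 0 < α := by positivity
  have hα1 : α ≤ 1 := by
    rw [hα, div_le_one hk0]; linarith
  have hP := c2k_her (show 2 ≤ k by omega)
  obtain ⟨C₀, hC₀, hF⟩ := bondy_simonovits (show 2 ≤ k by omega) hP
  obtain ⟨A, n₀, hA0, hn₀, htail⟩ := hP.tail α C₀ hα0 hα1 hC₀ hF (ε / 2) (by positivity)
  set K : ℝ := (k : ℝ) - 1 with hK
  have hKc : ((k - 1 : ℕ) : ℝ) = K := by
    rw [hK, Nat.cast_sub (by omega)]
    simp
  have hK0 : 0 < K := by rw [hK]; linarith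
  set c0 : ℝ := K ^ (1 - 2 / (k : ℝ)) with hc0
  have hc00 : 0 < c0 := Real.rpow_pos_of_pos hK0 _
  have hc0k : c0 ^ k = K ^ (k - 2) := by
    rw [hc0, ← Real.rpow_natCast, ← Real.rpow_mul hK0.le, ← Real.rpow_natCast]
    congr 1
    rw [Nat.cast_sub (by omega)]
    field_simp
    push_cast
    ring
  set δ : ℝ := (c0 + ε) ^ k - c0 ^ k with hδ
  have hδ0 : 0 < δ := by
    rw [hδ, sub_pos]
    exact pow_lt_pow_left₀ (by linarith) hc00.le (by omega)
  set A' : ℝ := max A 1 with hA'
  have hA'1 : 1 ≤ A' := le_max_right _ _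
  have hA'A : A ≤ A' := le_max_left _ _
  set C : ℝ := k * (K ^ (k + 1) * (10 + k)) * A' ^ (k - 1) with hC
  have hC0 : 0 ≤ C := by positivity
  set M : ℝ := C / δ + 1 with hM
  have hM1 : 1 ≤ M := by
    rw [hM]
    have : 0 ≤ C / δ := by positivity
    linarith
  refine ⟨max n₀ ⌈M ^ k⌉₊, fun n hn => ?_⟩
  have hnn₀ : n₀ ≤ n := (le_max_left _ _).trans hn
  have hnM : M ^ k ≤ n := by
    calc M ^ k ≤ (⌈M ^ k⌉₊ : ℝ) := Nat.le_ceil _
      _ ≤ n := by exact_mod_cast (le_max_right _ _).trans hn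
  have hn1 : 1 ≤ n := hn₀.trans hnn₀
  have hn0 : (0 : ℝ) < n := by exact_mod_cast hn1
  have hn1' : (1 : ℝ) ≤ n := by exact_mod_cast hn1
  set N : ℝ := (n : ℝ) ^ α with hN
  have hN0 : 0 < N := by positivity
  have hN1 : 1 ≤ N := Real.one_le_rpow hn1' hα0.le
  have hNk : N ^ k = n := by rw [hN, hα]; exact rpow_root (by omega) _ hn0.le
  have hMN : M ≤ N := by
    refine le_of_pow_le_pow_left₀ (n := k) (by omega) hN0.le ?_
    rw [hNk]
    exact hnM
  have hrp : (n : ℝ) ^ (1 + α) = n * N := by rw [Real.rpow_add hn0, Real.rpow_one]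
  set G := hP.best n with hG
  have hPG : (SimpleGraph.cycleGraph (2 * k)).Free G := hP.best_P n
  set H : Finset (Fin n) := univ.filter fun x => A * N < ee G {x} univ with hH
  have ht := (htail (Fin n) G hPG (by rw [Fintype.card_fin]; exact hnn₀) H (fun x hx => by
    rw [hH, mem_filter] at hx
    rw [Fintype.card_fin]
    exact hx.2)).1
  rw [Fintype.card_fin] at ht
  have hfree : (SimpleGraph.cycleGraph (2 * k)).Free (del G H) := by
    intro hcon
    exact hPG (hcon.trans (SimpleGraph.IsContained.of_le (del_le G H)))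
  have hdeg : ∀ v, ee (del G H) {v} univ ≤ A' * N := by
    intro v
    have h1 := del_degree G H (A * N) (by positivity) (fun x hx => by
      rw [hH, mem_filter] at hx
      push Not at hx
      exact hx (mem_univ x)) v
    rw [ee_degree, sum_singleton]
    exact h1.trans (mul_le_mul_of_nonneg_right hA'A hN0.le)
  have hcore := core (del G H) hk hfree (by rw [Fintype.card_fin]; omega) (D := A' * N)
    (by nlinarith) hdeg
  rw [Fintype.card_fin, hKc] at hcore
  have h1 : (ee (del G H) univ univ / n) ^ k ≤ (N * (c0 + ε)) ^ k := by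
    refine hcore.trans ?_
    have e1 : (N * (c0 + ε)) ^ k = n * (K ^ (k - 2) + δ) := by
      rw [mul_pow, hNk, hδ, hc0k]
      ring
    have e2 : k * (K ^ (k + 1) * (10 + k)) * (A' * N) ^ (k - 1) = C * N ^ (k - 1) := by
      rw [hC, mul_pow]
      ring
    have e3 : (n : ℝ) = N * N ^ (k - 1) := by
      rw [← hNk, ← pow_succ']
      congr 1
      omega
    rw [e1, e2, mul_add]
    refine add_le_add_right ?_ _
    have h2 : C ≤ N * δ := by
      have h3 : C / δ ≤ N := by linarith
      rw [div_le_iff₀ hδ0] at h3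
      exact h3
    calc C * N ^ (k - 1) ≤ N * δ * N ^ (k - 1) := by gcongr
      _ = (N * N ^ (k - 1)) * δ := by ring
      _ = n * δ := by rw [← e3]
  have h2 : ee (del G H) univ univ / n ≤ N * (c0 + ε) :=
    le_of_pow_le_pow_left₀ (by omega) (by positivity) h1
  rw [div_le_iff₀ hn0] at h2
  have hee := ee_del G H
  have hFn : hP.F n = 2 * (SimpleGraph.extremalNumber n (SimpleGraph.cycleGraph (2 * k)) : ℝ) :=
    freeCls_F _ hP n
  have hFn' : hP.F n = ee G univ univ := rfl
  rw [hrp]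
  have h3 : (2 : ℝ) * (SimpleGraph.extremalNumber n (SimpleGraph.cycleGraph (2 * k)) : ℝ) ≤
      N * (c0 + ε) * n + 2 * (ε / 2 * (n * N)) := by
    rw [← hFn, hFn']
    linarith
  have h4 : N * (c0 + ε) * n + 2 * (ε / 2 * (n * N)) = 2 * ((c0 / 2 + ε) * (n * N)) := by ring
  rw [h4] at h3
  linarith

end Pool.Agent.V5helper3.EC
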