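import Mathlib

set_option autoImplicit false

/-! # A periodicity lemma for cycles with a chord

`χ` is a property of the even positions `2 a` of a cycle of length `2 M` with a chord from the
position `0` to the position `2 ρ + 1`; it does not change along the paths of length `2 l` with
ends in even positions.  Then it is constant. -/

namespace Pool.Agent.V5helper3.EC

/-- a property with period `n` which holds on `n` consecutive integers holds everywhere -/
theorem cover (n : ℤ) (hn : 0 < n) (Q : ℤ → Prop) (hQ : ∀ a, Q (a + n) ↔ Q a) (s : ℤ)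
    (h : ∀ a, s ≤ a → a < s + n → Q a) (a : ℤ) : Q a := by
  have h1 : ∀ (t : ℕ) (a : ℤ), Q (a + n * t) ↔ Q a := by
    intro t
    induction t with
    | zero => intro a; simp
    | succ t ih =>
      intro a
      have e : a + n * ((t + 1 : ℕ) : ℤ) = (a + n * t) + n := by push_cast; ring
      rw [e, hQ, ih]
  have h2 : ∀ (t : ℤ) (a : ℤ), Q (a + n * t) ↔ Q a := by
    intro t a
    rcases Int.eq_nat_or_neg t with ⟨m, rfl | rfl⟩
    · exact h1 m a
    · rw [← h1 m (a + n * -(m : ℤ))]
      have e : a + n * -(m : ℤ) + n * m = a := by ring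
      rw [e]
  have h3 := Int.emod_add_mul_ediv (a - s) n
  have h4 := Int.emod_nonneg (a - s) hn.ne'
  have h5 := Int.emod_lt_of_pos (a - s) hn
  have h6 : a = (s + (a - s) % n) + n * ((a - s) / n) := by linarith
  rw [h6, h2]
  exact h _ (by linarith) (by linarith)

theorem const_of_step (χ : ℤ → Prop) (h : ∀ a, χ (a + 1) ↔ χ a) (a b : ℤ) : χ a ↔ χ b := by
  have h0 : ∀ a, χ a ↔ χ 0 := by
    intro a
    exact cover 1 one_pos (fun a => χ a ↔ χ 0) (fun a => by rw [h]) 0
      (fun a h1 h2 => by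
        have : a = 0 := by omega
        rw [this]) a
  rw [h0 a, h0 b]

theorem const_of_theta (M l ρ : ℤ) (χ : ℤ → Prop) (hM : ∀ a, χ (a + M) ↔ χ a) (hl : 1 ≤ l)
    (hlM : l < M) (hρ : 1 ≤ ρ) (hρM : ρ + 2 ≤ M) (h1 : ∀ a, χ (a + l) ↔ χ a)
    (hA : l ≤ ρ → ∀ a : ℤ, 0 ≤ a → a < l → (χ a ↔ χ (a + ρ + 1 - l)))
    (hB : l + ρ + 1 ≤ M → ∀ a : ℤ, 0 ≤ a → a < l → (χ (-a) ↔ χ (ρ + l - a)))
    (hR1 : ∀ a : ℤ, 0 ≤ a → l ≤ a + ρ → a < l → a + ρ < M → (χ (-a) ↔ χ (a + ρ + 1 - l)))
    (hR2 : ∀ a : ℤ, 0 ≤ a → l + ρ + 1 ≤ a + M → a ≤ ρ → a < l → (χ a ↔ χ (ρ + l - a)))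
    (a b : ℤ) : χ a ↔ χ b := by
  have h1' : ∀ a, χ (a - l) ↔ χ a := by
    intro a
    rw [← h1 (a - l), sub_add_cancel]
  have hM' : ∀ a, χ (a - M) ↔ χ a := by
    intro a
    rw [← hM (a - M), sub_add_cancel]
  -- simplified forms
  have kA : l ≤ ρ → ∀ a, χ (a + (ρ + 1)) ↔ χ a := by
    intro hlρ a
    refine cover l (by omega) (fun a => χ (a + (ρ + 1)) ↔ χ a) (fun a => ?_) 0 (fun a ha ha' => ?_) a
    · have e : a + l + (ρ + 1) = a + (ρ + 1) + l := by ring
      rw [e, h1, h1]
    · have h2 := hA hlρ a ha (by omega)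
      rw [h2, ← h1' (a + (ρ + 1))]
      have e : a + (ρ + 1) - l = a + ρ + 1 - l := by ring
      rw [e]
  have kB : l + ρ + 1 ≤ M → ∀ a, χ (a + ρ) ↔ χ a := by
    intro hlρ a
    have h3 : ∀ a, (χ (-a) ↔ χ (ρ - a)) := by
      intro a
      refine cover l (by omega) (fun a => χ (-a) ↔ χ (ρ - a)) (fun a => ?_) 0 (fun a ha ha' => ?_) a
      · have e1 : -(a + l) = -a - l := by ring
        have e2 : ρ - (a + l) = ρ - a - l := by ring
        rw [e1, e2, h1', h1']
      · have h2 := hB hlρ a ha (by omega)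
        rw [h2]
        have e : ρ + l - a = ρ - a + l := by ring
        rw [e, h1]
    have h4 := h3 (-a)
    have e1 : - -a = a := by ring
    have e2 : ρ - -a = a + ρ := by ring
    rw [e1, e2] at h4
    exact h4.symm
  have kR1 : ∀ a : ℤ, 0 ≤ a → l ≤ a + ρ → a < l → a + ρ < M → (χ (-a) ↔ χ (a + (ρ + 1))) := by
    intro a h2 h3 h4 h5
    rw [hR1 a h2 h3 h4 h5, ← h1' (a + (ρ + 1))]
    have e : a + (ρ + 1) - l = a + ρ + 1 - l := by ring
    rw [e]
  have kR2 : ∀ a : ℤ, 0 ≤ a → l + ρ + 1 ≤ a + M → a ≤ ρ → a < l → (χ a ↔ χ (ρ - a)) := by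
    intro a h2 h3 h4 h5
    rw [hR2 a h2 h3 h4 h5]
    have e : ρ + l - a = ρ - a + l := by ring
    rw [e, h1]
  refine const_of_step χ (fun a => ?_) a b
  rcases le_or_gt l ρ with hc | hc
  · have pρ := kA hc
    rcases le_or_gt (l + ρ + 1) M with hd | hd
    · -- case A
      have pρ' := kB hd
      rw [← pρ' (a + 1), ← pρ a]
      have e : a + 1 + ρ = a + (ρ + 1) := by ring
      rw [e]
    · -- case B
      have pn : ∀ a, χ (a + (M - 1 - ρ)) ↔ χ a := by
        intro a
        rw [← pρ (a + (M - 1 - ρ))]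
        have e : a + (M - 1 - ρ) + (ρ + 1) = a + M := by ring
        rw [e, hM]
      have pn' : ∀ a, χ (a - (M - 1 - ρ)) ↔ χ a := by
        intro a
        rw [← pn (a - (M - 1 - ρ)), sub_add_cancel]
      have q1 : ∀ a, (χ (-a) ↔ χ a) := by
        intro a
        refine cover (M - 1 - ρ) (by omega) (fun a => χ (-a) ↔ χ a) (fun a => ?_) 0
          (fun a ha ha' => ?_) a
        · have e1 : -(a + (M - 1 - ρ)) = -a - (M - 1 - ρ) := by ring
          rw [e1, pn', pn]
        · have h2 := kR1 a ha (by omega) (by omega) (by omega)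
          rw [h2, pρ]
      have q2 : ∀ a, (χ a ↔ χ (-1 - a)) := by
        intro a
        refine cover (M - 1 - ρ) (by omega) (fun a => χ a ↔ χ (-1 - a)) (fun a => ?_)
          (l - (M - 1 - ρ)) (fun a ha ha' => ?_) a
        · have e1 : -1 - (a + (M - 1 - ρ)) = -1 - a - (M - 1 - ρ) := by ring
          rw [e1, pn', pn]
        · have h2 := kR2 a (by omega) (by omega) (by omega) (by omega)
          rw [h2, ← pρ (-1 - a)]
          have e : -1 - a + (ρ + 1) = ρ - a := by ring
          rw [e]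
      rw [q2 a, ← q1 (a + 1)]
      have e : -(a + 1) = -1 - a := by ring
      rw [e]
  · rcases le_or_gt (l + ρ + 1) M with hd | hd
    · -- case C
      have pρ := kB hd
      have pρ' : ∀ a, χ (a - ρ) ↔ χ a := by
        intro a
        rw [← pρ (a - ρ), sub_add_cancel]
      have q1 : ∀ a, (χ (-a) ↔ χ (a + 1)) := by
        intro a
        refine cover ρ (by omega) (fun a => χ (-a) ↔ χ (a + 1)) (fun a => ?_) (l - ρ)
          (fun a ha ha' => ?_) a
        · have e1 : -(a + ρ) = -a - ρ := by ring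
          have e2 : a + ρ + 1 = a + 1 + ρ := by ring
          rw [e1, e2, pρ', pρ]
        · have h2 := kR1 a (by omega) (by omega) (by omega) (by omega)
          rw [h2, ← pρ (a + 1)]
          have e : a + 1 + ρ = a + (ρ + 1) := by ring
          rw [e]
      have q2 : ∀ a, (χ a ↔ χ (-a)) := by
        intro a
        refine cover ρ (by omega) (fun a => χ a ↔ χ (-a)) (fun a => ?_) 0 (fun a ha ha' => ?_) a
        · have e1 : -(a + ρ) = -a - ρ := by ring
          rw [e1, pρ', pρ]
        · have h2 := kR2 a (by omega) (by omega) (by omega) (by omega)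
          rw [h2]
          have e : ρ - a = -a + ρ := by ring
          rw [e, pρ]
      rw [q2 a, q1 a]
    · -- case D
      have pn : ∀ a, χ (a + (M - l)) ↔ χ a := by
        intro a
        rw [← h1 (a + (M - l))]
        have e : a + (M - l) + l = a + M := by ring
        rw [e, hM]
      have pn' : ∀ a, χ (a - (M - l)) ↔ χ a := by
        intro a
        rw [← pn (a - (M - l)), sub_add_cancel]
      have q1 : ∀ a, (χ (-a) ↔ χ (a + (ρ + 1))) := by
        intro a
        refine cover (M - l) (by omega) (fun a => χ (-a) ↔ χ (a + (ρ + 1))) (fun a => ?_) (l - ρ)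
          (fun a ha ha' => ?_) a
        · have e1 : -(a + (M - l)) = -a - (M - l) := by ring
          have e2 : a + (M - l) + (ρ + 1) = a + (ρ + 1) + (M - l) := by ring
          rw [e1, e2, pn', pn]
        · exact kR1 a (by omega) (by omega) (by omega) (by omega)
      have q2 : ∀ a, (χ a ↔ χ (ρ - a)) := by
        intro a
        refine cover (M - l) (by omega) (fun a => χ a ↔ χ (ρ - a)) (fun a => ?_)
          (l + ρ + 1 - M) (fun a ha ha' => ?_) a
        · have e1 : ρ - (a + (M - l)) = ρ - a - (M - l) := by ring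
          rw [e1, pn', pn]
        · exact kR2 a (by omega) (by omega) (by omega) (by omega)
      rw [q2 a]
      have h2 := q1 (a - ρ)
      have e1 : -(a - ρ) = ρ - a := by ring
      have e2 : a - ρ + (ρ + 1) = a + 1 := by ring
      rw [e1, e2] at h2
      exact h2.symm

end Pool.Agent.V5helper3.EC
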