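import Pool.Agent.V5helper3.EC.Level

set_option autoImplicit false

/-! # Numbers of edges inside and between the levels -/

namespace Pool.Agent.V5helper3.EC

open Finset

variable {V : Type}

open Classical in
/-- number of pairs of `A × B` in the relation `r` -/
noncomputable def en (r : V → V → Prop) (A B : Finset V) : ℕ :=
  ∑ v ∈ A, ∑ w ∈ B, if r v w then 1 else 0

open Classical in
theorem en_eq (r : V → V → Prop) (A B : Finset V) : en r A B = ∑ v ∈ A, #(B.filter (r v)) := by
  unfold en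
  refine sum_congr rfl fun v _ => ?_
  rw [card_filter]

theorem en_comm (r : V → V → Prop) (hs : ∀ v w, r v w → r w v) (A B : Finset V) :
    en r A B = en r B A := by
  classical
  unfold en
  rw [sum_comm]
  refine sum_congr rfl fun v _ => sum_congr rfl fun w _ => ?_
  have : r w v ↔ r v w := ⟨hs _ _, hs _ _⟩
  simp only [this]

theorem en_insert_left [DecidableEq V] (r : V → V → Prop) (A B : Finset V) (a : V) (ha : a ∉ A) :
    en r (insert a A) B = en r {a} B + en r A B := by
  unfold en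
  rw [sum_insert ha, sum_singleton]

theorem en_insert_right [DecidableEq V] (r : V → V → Prop) (A B : Finset V) (a : V) (ha : a ∉ B) :
    en r A (insert a B) = en r A {a} + en r A B := by
  unfold en
  rw [← sum_add_distrib]
  refine sum_congr rfl fun v _ => ?_
  rw [sum_insert ha, sum_singleton]

theorem en_self (r : V → V → Prop) (hi : ∀ v, ¬ r v v) (a : V) : en r {a} {a} = 0 := by
  unfold en
  simp [hi]

theorem en_mono (r : V → V → Prop) {A B A' B' : Finset V} (h1 : A ⊆ A') (h2 : B ⊆ B') :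
    en r A B ≤ en r A' B' := by
  unfold en
  refine (sum_le_sum fun v _ => sum_le_sum_of_subset h2).trans ?_
  exact sum_le_sum_of_subset h1

open Classical in
theorem sparse (r : V → V → Prop) (hs : ∀ v w, r v w → r w v) (hi : ∀ v, ¬ r v v) (K : ℕ)
    (S : Finset V)
    (h : ∀ T ⊆ S, T.Nonempty → ∃ v ∈ T, #(T.filter (r v)) ≤ K) : en r S S ≤ 2 * K * #S := by
  induction hn : #S generalizing S with
  | zero =>
    rw [card_eq_zero] at hn
    subst hn
    simp [en]
  | succ n ih =>
    have hne : S.Nonempty := by rw [← card_pos]; omega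
    obtain ⟨v, hv, hd⟩ := h S Subset.rfl hne
    have h1 := ih (S.erase v) (fun T hT => h T (hT.trans (erase_subset _ _)))
      (by rw [card_erase_of_mem hv]; omega)
    have h2 : S = insert v (S.erase v) := (insert_erase hv).symm
    have h3 : en r {v} (S.erase v) ≤ K := by
      refine le_trans ?_ hd
      rw [en_eq, sum_singleton]
      exact card_le_card (filter_subset_filter _ (erase_subset _ _))
    have hnot : v ∉ S.erase v := notMem_erase _ _
    rw [h2, en_insert_left r _ _ v hnot, en_insert_right r _ _ v hnot,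
      en_insert_right r _ _ v hnot, en_self r hi, en_comm r hs (S.erase v) {v}]
    have e : 2 * K * (n + 1) = 2 * K * n + 2 * K := by ring
    omega

theorem cut (r : V → V → Prop) (hs : ∀ v w, r v w → r w v) (hi : ∀ v, ¬ r v v) (S : Finset V) :
    ∃ T U : Finset V, T ⊆ S ∧ U ⊆ S ∧ Disjoint T U ∧ en r S S ≤ 4 * en r T U := by
  classical
  suffices h : ∃ T U : Finset V, T ∪ U = S ∧ Disjoint T U ∧ en r S S ≤ 4 * en r T U by
    obtain ⟨T, U, h1, h2, h3⟩ := h
    exact ⟨T, U, h1 ▸ subset_union_left, h1 ▸ subset_union_right, h2, h3⟩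
  induction S using Finset.induction_on with
  | empty => exact ⟨∅, ∅, by simp, by simp, by simp [en]⟩
  | insert a S ha ih =>
    obtain ⟨T, U, hTU, hd, h⟩ := ih
    have haT : a ∉ T := fun h1 => ha (hTU ▸ mem_union_left _ h1)
    have haU : a ∉ U := fun h1 => ha (hTU ▸ mem_union_right _ h1)
    have h1 : en r {a} S ≤ en r {a} T + en r {a} U := by
      rw [← hTU]
      unfold en
      simp only [sum_singleton]
      rw [sum_union hd]
    rw [en_insert_left r _ _ a ha, en_insert_right r _ _ a ha, en_insert_right r _ _ a ha,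
      en_self r hi, en_comm r hs S {a}]
    rcases le_total (en r {a} T) (en r {a} U) with h2 | h2
    · refine ⟨insert a T, U, ?_, ?_, ?_⟩
      · rw [insert_union, hTU]
      · rw [disjoint_insert_left]
        exact ⟨haU, hd⟩
      · rw [en_insert_left r _ _ a haT]
        omega
    · refine ⟨T, insert a U, ?_, ?_, ?_⟩
      · rw [union_insert, hTU]
      · rw [disjoint_insert_right]
        exact ⟨haT, hd⟩
      · rw [en_insert_right r _ _ a haU, en_comm r hs T {a}]
        omega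

theorem edges_YZ {G : SimpleGraph V} {x : V} {k : ℕ} (hk : 3 ≤ k) (hG : NoC G k)
    (F : Lev G x k) (j : ℕ) (hj : 1 ≤ j) (hjk : j < k) (Y Z : Finset V)
    (hY : ∀ v ∈ Y, F.L v = j) (hZ : ∀ v ∈ Z, j ≤ F.L v) (hYZ : Disjoint Y Z) :
    en G.Adj Y Z ≤ (k - 1) * (#Y + #Z) := by
  classical
  set r : V → V → Prop := fun v w => G.Adj v w ∧ (v ∈ Y ∧ w ∈ Z ∨ v ∈ Z ∧ w ∈ Y) with hr
  have hs : ∀ v w, r v w → r w v := by
    rintro v w ⟨h1, h2 | h2⟩
    · exact ⟨h1.symm, Or.inr ⟨h2.2, h2.1⟩⟩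
    · exact ⟨h1.symm, Or.inl ⟨h2.2, h2.1⟩⟩
  have hi : ∀ v, ¬ r v v := fun v h => h.1.ne rfl
  have hex : ∀ v, v ∈ Y → v ∉ Z := fun v h1 h2 => (disjoint_left.1 hYZ) h1 h2
  have h1 := sparse r hs hi (k - 1) (Y ∪ Z) (by
    intro T _ hTne
    by_contra hcon
    push Not at hcon
    refine level_lemma hk hG F j hj hjk (fun v => v ∈ Y) (fun v => v ∈ Z) hY hZ hex T hTne ?_
    intro v hv
    have h3 := Nat.succ_le_of_lt (hcon v hv)
    have e : (k - 1).succ = k := by omega
    rw [e] at h3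
    convert h3)
  have h2 : en r Y Z = en G.Adj Y Z := by
    unfold en
    refine sum_congr rfl fun v hv => sum_congr rfl fun w hw => ?_
    simp only [hr, hv, hw, true_or, and_true]
  have h3 : en r Y Z + en r Z Y ≤ en r (Y ∪ Z) (Y ∪ Z) := by
    have e1 : en r (Y ∪ Z) (Y ∪ Z) = en r Y (Y ∪ Z) + en r Z (Y ∪ Z) := by
      unfold en
      rw [sum_union hYZ]
    rw [e1]
    exact Nat.add_le_add (en_mono r Subset.rfl subset_union_right)
      (en_mono r Subset.rfl subset_union_left)
  rw [en_comm r hs Z Y, h2] at h3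
  have h4 : #(Y ∪ Z) = #Y + #Z := card_union_of_disjoint hYZ
  rw [h4] at h1
  have h5 : 2 * en G.Adj Y Z ≤ 2 * ((k - 1) * (#Y + #Z)) := by
    calc 2 * en G.Adj Y Z ≤ 2 * (k - 1) * (#Y + #Z) := by omega
      _ = _ := by ring
  omega

theorem edges_level {G : SimpleGraph V} {x : V} {k : ℕ} (hk : 3 ≤ k) (hG : NoC G k)
    (F : Lev G x k) (j : ℕ) (hj : 1 ≤ j) (hjk : j < k) (S : Finset V)
    (hS : ∀ v ∈ S, F.L v = j) : en G.Adj S S ≤ 8 * (k - 1) * #S := by
  obtain ⟨T, U, hT, hU, hd, h⟩ := cut G.Adj (fun v w h => h.symm) (fun v h => h.ne rfl) S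
  have h1 := edges_YZ hk hG F j hj hjk T U (fun v hv => hS v (hT hv))
    (fun v hv => (hS v (hU hv)).ge) hd
  have h2 := card_le_card hT
  have h3 := card_le_card hU
  calc en G.Adj S S ≤ 4 * en G.Adj T U := h
    _ ≤ 4 * ((k - 1) * (#T + #U)) := Nat.mul_le_mul_left _ h1
    _ ≤ 4 * ((k - 1) * (#S + #S)) :=
      Nat.mul_le_mul_left _ (Nat.mul_le_mul_left _ (Nat.add_le_add h2 h3))
    _ = _ := by ring

open Classical in
theorem edges_high {G : SimpleGraph V} {x : V} {k : ℕ} (hk : 3 ≤ k) (hG : NoC G k)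
    (F : Lev G x k) (j : ℕ) (hj : 1 ≤ j) (hjk : j < k) (Y Z : Finset V)
    (hY : ∀ v ∈ Y, F.L v = j) (hZ : ∀ v ∈ Z, F.L v = j + 1)
    (hd : ∀ v ∈ Z, k ≤ #(Y.filter (G.Adj v))) : en G.Adj Y Z ≤ k * (k - 1) * #Y := by
  have hdis : Disjoint Y Z := by
    rw [disjoint_left]
    intro v h1 h2
    have := hY v h1
    have := hZ v h2
    omega
  have h1 := edges_YZ hk hG F j hj hjk Y Z hY (fun v hv => by rw [hZ v hv]; omega) hdis
  have h2 : k * #Z ≤ en G.Adj Y Z := by
    rw [en_comm G.Adj (fun v w h => h.symm), en_eq, mul_comm, ← smul_eq_mul]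
    exact card_nsmul_le_sum _ _ _ hd
  obtain ⟨K, rfl⟩ : ∃ K, k = K + 1 := ⟨k - 1, by omega⟩
  rw [Nat.add_sub_cancel] at h1 ⊢
  have h3 : #Z ≤ K * #Y := by
    have : (K + 1) * #Z ≤ K * (#Y + #Z) := h2.trans h1
    rw [add_mul, mul_add] at this
    omega
  calc en G.Adj Y Z ≤ K * (#Y + #Z) := h1
    _ ≤ K * (#Y + K * #Y) := Nat.mul_le_mul_left _ (Nat.add_le_add_left h3 _)
    _ = _ := by ring

end Pool.Agent.V5helper3.EC
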