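import Pool.Agent.V5helper3.EC.Num

set_option autoImplicit false

/-! # Cycles with a chord above a tree -/

namespace Pool.Agent.V5helper3.EC

variable {V : Type}

/-- there is no closed sequence of `2 k` different vertices -/
def NoC (G : SimpleGraph V) (k : ℕ) : Prop :=
  ∀ f : ℕ → V, (∀ i < 2 * k, G.Adj (f i) (f (i + 1))) → f 0 = f (2 * k) →
    ¬ ∀ i j, i < 2 * k → j < 2 * k → f i = f j → i = j

/-- two paths with the same ends and otherwise disjoint, of total length `2 k` -/
theorem glue {G : SimpleGraph V} {k : ℕ} (hG : NoC G k) (a b : ℕ) (ha : 1 ≤ a) (hb : 1 ≤ b)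
    (hab : a + b = 2 * k) (P Q : ℕ → V) (hP : ∀ i < a, G.Adj (P i) (P (i + 1)))
    (hQ : ∀ i < b, G.Adj (Q i) (Q (i + 1))) (h0 : P 0 = Q 0) (h1 : P a = Q b)
    (iP : ∀ i j, i ≤ a → j ≤ a → P i = P j → i = j)
    (iQ : ∀ i j, i ≤ b → j ≤ b → Q i = Q j → i = j)
    (hd : ∀ i j, 0 < i → i < a → 0 < j → j < b → P i ≠ Q j) : False := by
  have hQ' : ∀ i, 0 < i → i ≤ b → G.Adj (Q i) (Q (i - 1)) := by
    intro i hi hi'
    have := hQ (i - 1) (by omega)
    rw [Nat.sub_add_cancel hi] at this
    exact this.symm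
  refine hG (fun i => if i ≤ a then P i else Q (a + b - i)) ?_ ?_ ?_
  · intro i hi
    by_cases h2 : i < a
    · have h3 : i ≤ a := h2.le
      have h4 : i + 1 ≤ a := h2
      simp only [h3, h4, if_true]
      exact hP i h2
    · by_cases h3 : i = a
      · subst h3
        have h5 : ¬ i + 1 ≤ i := by omega
        simp only [le_refl, if_true, h5, if_false]
        rw [h1]
        have e : i + b - (i + 1) = b - 1 := by omega
        rw [e]
        exact hQ' b hb le_rfl
      · have h4 : ¬ i ≤ a := by omega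
        have h5 : ¬ i + 1 ≤ a := by omega
        simp only [h4, h5, if_false]
        have e : a + b - (i + 1) = a + b - i - 1 := by omega
        rw [e]
        exact hQ' _ (by omega) (by omega)
  · have h2 : ¬ 2 * k ≤ a := by omega
    simp only [Nat.zero_le, if_true, h2, if_false]
    rw [hab, Nat.sub_self, h0]
  · have key : ∀ i j, i ≤ a → a < j → j < 2 * k → P i ≠ Q (a + b - j) := by
      intro i j hi hj hj' hij
      rcases Nat.eq_zero_or_pos i with h2 | h2
      · subst h2
        rw [h0] at hij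
        have := iQ _ _ (by omega) (by omega) hij
        omega
      · rcases eq_or_lt_of_le hi with h3 | h3
        · subst h3
          rw [h1] at hij
          have := iQ _ _ (by omega) (by omega) hij
          omega
        · exact hd i (a + b - j) h2 h3 (by omega) (by omega) hij
    intro i j hi hj hij
    split_ifs at hij with h2 h3 h3
    · exact iP i j h2 h3 hij
    · exact absurd hij (key i j h2 (by omega) hj)
    · exact absurd hij.symm (key j i h3 (by omega) hi)
    · have := iQ _ _ (by omega) (by omega) hij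
      omega

/-- **A cycle with a chord above a tree.** -/
theorem theta {G : SimpleGraph V} {k : ℕ} (hG : NoC G k) (h : ℕ) (hh : 1 ≤ h) (hhk : h < k)
    (M ρ : ℤ) (hkM : (k : ℤ) ≤ M) (hρ : 1 ≤ ρ) (hρM : ρ + 2 ≤ M) (c : ℤ → V)
    (hper : ∀ p, c (p + 2 * M) = c p) (hinj : ∀ p q, c p = c q → 2 * M ∣ p - q)
    (hadj : ∀ p, G.Adj (c p) (c (p + 1))) (hch : G.Adj (c 0) (c (2 * ρ + 1)))
    (X : V → Prop)
    (hT : ∀ a b : ℤ, X (c (2 * a)) → ¬ X (c (2 * b)) → ∃ T : ℕ → V, T 0 = c (2 * a) ∧
      T (2 * h) = c (2 * b) ∧ (∀ i < 2 * h, G.Adj (T i) (T (i + 1))) ∧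
      (∀ i j, i ≤ 2 * h → j ≤ 2 * h → T i = T j → i = j) ∧
      ∀ i, 0 < i → i < 2 * h → ∀ p, T i ≠ c p) (a b : ℤ) :
    X (c (2 * a)) ↔ X (c (2 * b)) := by
  obtain ⟨l, hl⟩ : ∃ l : ℕ, l + h = k := ⟨k - h, by omega⟩
  have hM0 : 0 < M := by omega
  have hadj' : ∀ p, G.Adj (c p) (c (p - 1)) := by
    intro p
    have := hadj (p - 1)
    rw [sub_add_cancel] at this
    exact this.symm
  -- exclusion of paths
  have E1 : ∀ (a b : ℤ) (P : ℕ → ℤ), P 0 = 2 * a → P (2 * l) = 2 * b →
      (∀ i < 2 * l, G.Adj (c (P i)) (c (P (i + 1)))) →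
      (∀ i j, i ≤ 2 * l → j ≤ 2 * l → 2 * M ∣ P i - P j → i = j) →
      X (c (2 * a)) → X (c (2 * b)) := by
    intro a b P h0 h1 h2 h3 h4
    by_contra h5
    obtain ⟨T, t0, t1, t2, t3, t4⟩ := hT a b h4 h5
    refine glue hG (2 * h) (2 * l) (by omega) (by omega) (by omega) T (fun i => c (P i)) t2 h2
      (by simp only [t0, h0]) (by simp only [t1, h1]) t3 (fun i j hi hj hij => ?_)
      (fun i j h6 h7 _ _ => t4 i h6 h7 _)
    exact h3 i j hi hj (hinj _ _ hij)
  have E2 : ∀ (a b : ℤ) (P : ℕ → ℤ), P 0 = 2 * a → P (2 * l) = 2 * b →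
      (∀ i < 2 * l, G.Adj (c (P i)) (c (P (i + 1)))) →
      (∀ i j, i ≤ 2 * l → j ≤ 2 * l → |P i - P j| < 2 * M ∧ (P i = P j → i = j)) →
      (X (c (2 * a)) ↔ X (c (2 * b))) := by
    intro a b P h0 h1 h2 h3
    have h3' : ∀ i j, i ≤ 2 * l → j ≤ 2 * l → 2 * M ∣ P i - P j → i = j := by
      intro i j hi hj hd
      have h4 := Int.eq_zero_of_abs_lt_dvd hd (h3 i j hi hj).1
      exact (h3 i j hi hj).2 (by linarith)
    refine ⟨E1 a b P h0 h1 h2 h3', E1 b a (fun i => P (2 * l - i)) (by simpa using h1)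
      (by simpa using h0) (fun i hi => ?_) (fun i j hi hj hd => ?_)⟩
    · have h4 := (h2 (2 * l - i - 1) (by omega)).symm
      have e1 : 2 * l - i - 1 + 1 = 2 * l - i := by omega
      have e2 : 2 * l - i - 1 = 2 * l - (i + 1) := by omega
      rw [e1, e2] at h4
      exact h4
    · have h4 := h3' _ _ (by omega) (by omega) hd
      omega
  -- paths through the chord, the signs say in which directions
  have E3 : ∀ (σ τ a : ℤ), (σ = 1 ∨ σ = -1) → (τ = 1 ∨ τ = -1) → 0 ≤ a → a < l →
      (∀ i j : ℤ, 0 ≤ i → i ≤ 2 * a → 0 ≤ j → j ≤ 2 * l - 2 * a - 1 →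
        |(2 * ρ + 1 + τ * j) - σ * i| < 2 * M ∧ 2 * ρ + 1 + τ * j ≠ σ * i) →
      (X (c (2 * (σ * a))) ↔ X (c (2 * (ρ + (1 + τ * (2 * l - 2 * a - 1)) / 2)))) := by
    intro σ τ a hσ hτ ha hal hsp
    obtain ⟨A, rfl⟩ : ∃ A : ℕ, a = A := ⟨a.toNat, by omega⟩
    refine E2 (σ * A) (ρ + (1 + τ * (2 * l - 2 * A - 1)) / 2)
      (fun i => if i ≤ 2 * A then σ * (2 * A - i) else 2 * ρ + 1 + τ * (i - 2 * A - 1)) ?_ ?_ ?_ ?_
    · simp only [Nat.zero_le, if_true]
      push_cast
      ring
    · have h1 : ¬ 2 * l ≤ 2 * A := by omega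
      simp only [h1, if_false]
      push_cast
      rcases hτ with rfl | rfl <;> omega
    · intro i hi
      by_cases h1 : i < 2 * A
      · have h2 : i ≤ 2 * A := h1.le
        have h3 : i + 1 ≤ 2 * A := h1
        simp only [h2, h3, if_true]
        push_cast
        rcases hσ with rfl | rfl
        · have e : (1 : ℤ) * (2 * A - (i + 1)) = 1 * (2 * A - i) - 1 := by ring
          rw [e]
          exact hadj' _
        · have e : (-1 : ℤ) * (2 * A - (i + 1)) = -1 * (2 * A - i) + 1 := by ring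
          rw [e]
          exact hadj _
      · by_cases h2 : i = 2 * A
        · subst h2
          have h3 : ¬ 2 * A + 1 ≤ 2 * A := by omega
          simp only [le_refl, if_true, h3, if_false]
          push_cast
          have e1 : σ * (2 * (A : ℤ) - 2 * A) = 0 := by ring
          have e2 : 2 * ρ + 1 + τ * (2 * (A : ℤ) + 1 - 2 * A - 1) = 2 * ρ + 1 := by ring
          rw [e1, e2]
          exact hch
        · have h3 : ¬ i ≤ 2 * A := by omega
          have h4 : ¬ i + 1 ≤ 2 * A := by omega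
          simp only [h3, h4, if_false]
          push_cast
          rcases hτ with rfl | rfl
          · have e : 2 * ρ + 1 + 1 * ((i : ℤ) + 1 - 2 * A - 1) =
                2 * ρ + 1 + 1 * ((i : ℤ) - 2 * A - 1) + 1 := by ring
            rw [e]
            exact hadj _
          · have e : 2 * ρ + 1 + -1 * ((i : ℤ) + 1 - 2 * A - 1) =
                2 * ρ + 1 + -1 * ((i : ℤ) - 2 * A - 1) - 1 := by ring
            rw [e]
            exact hadj' _
    · have key : ∀ i j : ℕ, i ≤ 2 * A → 2 * A < j → j ≤ 2 * l →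
          |(2 * ρ + 1 + τ * (j - 2 * A - 1)) - σ * (2 * A - i)| < 2 * M ∧
          (2 * ρ + 1 + τ * (j - 2 * A - 1)) ≠ σ * (2 * A - i) := by
        intro i j hi hj hj'
        exact hsp (2 * A - i) (j - 2 * A - 1) (by omega) (by omega) (by omega) (by omega)
      intro i j hi hj
      by_cases h1 : i ≤ 2 * A <;> by_cases h2 : j ≤ 2 * A
      · simp only [h1, h2, if_true]
        constructor
        · rcases hσ with rfl | rfl <;> rw [abs_lt] <;> constructor <;> omega
        · intro h3
          rcases hσ with rfl | rfl <;> omega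
      · simp only [h1, h2, if_true, if_false]
        have h3 := key i j h1 (by omega) hj
        rw [abs_sub_comm]
        exact ⟨h3.1, fun h4 => absurd h4.symm h3.2⟩
      · simp only [h1, h2, if_true, if_false]
        have h3 := key j i h2 (by omega) hi
        exact ⟨h3.1, fun h4 => absurd h4 h3.2⟩
      · simp only [h1, h2, if_false]
        constructor
        · rcases hτ with rfl | rfl <;> rw [abs_lt] <;> constructor <;> omega
        · intro h3
          rcases hτ with rfl | rfl <;> omega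
  have hlM : (l : ℤ) < M := by omega
  have hl1 : (1 : ℤ) ≤ l := by omega
  refine const_of_theta M l ρ (fun a => X (c (2 * a))) ?_ hl1 hlM hρ hρM ?_ ?_ ?_ ?_ ?_ a b
  · intro a
    have e : 2 * (a + M) = 2 * a + 2 * M := by ring
    rw [e, hper]
  · intro a
    refine (E2 a (a + l) (fun i => 2 * a + i) (by simp) (by push_cast; ring) (fun i _ => ?_)
      (fun i j hi hj => ⟨?_, fun h1 => by omega⟩)).symm
    · have := hadj (2 * a + i)
      push_cast
      rw [← add_assoc]
      exact this
    · rw [abs_lt]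
      constructor <;> omega
  · intro hlρ a ha hal
    have h1 := E3 1 (-1) a (Or.inl rfl) (Or.inr rfl) ha hal (fun i j h1 h2 h3 h4 => by
      constructor
      · rw [abs_lt]; constructor <;> omega
      · omega)
    have e1 : 2 * (1 * a) = 2 * a := by ring
    have e2 : ρ + (1 + -1 * (2 * (l : ℤ) - 2 * a - 1)) / 2 = a + ρ + 1 - l := by omega
    rw [e1, e2] at h1
    exact h1
  · intro hlρ a ha hal
    have h1 := E3 (-1) 1 a (Or.inr rfl) (Or.inl rfl) ha hal (fun i j h1 h2 h3 h4 => by
      constructor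
      · rw [abs_lt]; constructor <;> omega
      · omega)
    have e1 : 2 * (-1 * a) = 2 * -a := by ring
    have e2 : ρ + (1 + 1 * (2 * (l : ℤ) - 2 * a - 1)) / 2 = ρ + l - a := by omega
    rw [e1, e2] at h1
    exact h1
  · intro a ha h2 hal h3
    have h1 := E3 (-1) (-1) a (Or.inr rfl) (Or.inr rfl) ha hal (fun i j h1 h2 h3 h4 => by
      constructor
      · rw [abs_lt]; constructor <;> omega
      · omega)
    have e1 : 2 * (-1 * a) = 2 * -a := by ring
    have e2 : ρ + (1 + -1 * (2 * (l : ℤ) - 2 * a - 1)) / 2 = a + ρ + 1 - l := by omega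
    rw [e1, e2] at h1
    exact h1
  · intro a ha h2 h3 hal
    have h1 := E3 1 1 a (Or.inl rfl) (Or.inl rfl) ha hal (fun i j h1 h2 h3 h4 => by
      constructor
      · rw [abs_lt]; constructor <;> omega
      · omega)
    have e1 : 2 * (1 * a) = 2 * a := by ring
    have e2 : ρ + (1 + 1 * (2 * (l : ℤ) - 2 * a - 1)) / 2 = ρ + l - a := by omega
    rw [e1, e2] at h1
    exact h1

end Pool.Agent.V5helper3.EC
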